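import Mathlib
import Pool.Agent.Results.MP_22e672_co.CubeDisproof

/-! # The cube: sources for `X i` of the cube are the same as binary covering arrays -/

namespace Pool.Agent.Y805.IL

open Pool.Agent.Results.MP_22e672_co.CubeDisproof

/-- The finite set `S` of sources outside `P` illuminates `X i P`. -/
def Illum {d : ℕ} (P : Set (EuclideanSpace ℝ (Fin d))) (i : ℕ)
    (S : Finset (EuclideanSpace ℝ (Fin d))) : Prop :=
  (∀ s ∈ S, s ∉ P) ∧ ∀ b ∈ X i P, ∃ s ∈ S, Illuminates P s b

/-- `A` is a binary covering array of strength `t` with `d` columns: on each `t` columns every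
pattern is the pattern of some row of `A`. -/
def Covers (d t : ℕ) (A : Finset (Fin d → Bool)) : Prop :=
  ∀ J : Finset (Fin d), J.card = t → ∀ ε : Fin d → Bool, ∃ a ∈ A, ∀ j ∈ J, a j = ε j

/-- the coordinates of modulus one -/
noncomputable def ones {d : ℕ} (b : EuclideanSpace ℝ (Fin d)) : Finset (Fin d) :=
  Finset.univ.filter (fun j => |b j| = 1)

lemma mem_ones {d : ℕ} {b : EuclideanSpace ℝ (Fin d)} {j : Fin d} : j ∈ ones b ↔ |b j| = 1 := by
  simp [ones]

lemma ones_nonempty {d : ℕ} {b : EuclideanSpace ℝ (Fin d)} (hb : b ∈ cube d)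
    (hf : b ∉ interior (cube d)) : (ones b).Nonempty := by
  by_contra h
  rw [Finset.not_nonempty_iff_eq_empty] at h
  apply hf
  apply mem_interior_of
  intro j
  refine lt_of_le_of_ne (hb j) fun hj => ?_
  have : j ∈ ones b := mem_ones.2 hj
  rw [h] at this
  simp at this

lemma isClosed_cube (d : ℕ) : IsClosed (cube d) := by
  have : cube d = ⋂ j, {x : EuclideanSpace ℝ (Fin d) | |x j| ≤ 1} := by
    ext x; simp [cube]
  rw [this]
  exact isClosed_iInter fun j => isClosed_le (by fun_prop) continuous_const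

lemma finrank_coord_le {d : ℕ} (J : Finset (Fin d)) (W : Submodule ℝ (EuclideanSpace ℝ (Fin d)))
    (hW : ∀ v ∈ W, ∀ j ∈ J, v j = 0) : Module.finrank ℝ W ≤ d - J.card := by
  have hle : W ≤ Submodule.span ℝ (Set.range (fun j : {j : Fin d // j ∉ J} =>
      (EuclideanSpace.single j.1 (1 : ℝ) : EuclideanSpace ℝ (Fin d)))) := by
    intro v hv
    have e : v = ∑ j : {j : Fin d // j ∉ J}, (v j.1) • (EuclideanSpace.single j.1 (1 : ℝ) :
        EuclideanSpace ℝ (Fin d)) := by
      ext k
      rw [WithLp.ofLp_sum, Finset.sum_apply]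
      simp only [PiLp.smul_apply, PiLp.single_apply, smul_eq_mul, mul_ite, mul_one,
        mul_zero]
      by_cases hk : k ∈ J
      · rw [hW v hv k hk]
        symm
        apply Finset.sum_eq_zero
        intro j _
        rw [if_neg]
        rintro rfl
        exact j.2 hk
      · rw [Finset.sum_eq_single (⟨k, hk⟩ : {j : Fin d // j ∉ J})]
        · simp
        · intro j _ hj
          rw [if_neg]
          rintro rfl
          exact hj rfl
        · simp
    rw [e]
    exact Submodule.sum_mem _ fun j _ => Submodule.smul_mem _ _ (Submodule.subset_span ⟨j, rfl⟩)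
  refine (Submodule.finrank_mono hle).trans ?_
  refine (finrank_range_le_card _).trans ?_
  rw [Fintype.card_subtype_compl]
  simp

/-- A point of `X i` of the cube has fewer than `d - i` coordinates of modulus one. -/
lemma card_ones_lt {d i : ℕ} {b : EuclideanSpace ℝ (Fin d)} (hi : i < d)
    (hb : b ∈ X i (cube d)) : (ones b).card + i < d := by
  obtain ⟨hf, hF⟩ := hb
  have hbc : b ∈ cube d := (isClosed_cube d).frontier_subset hf
  by_contra hcon
  push Not at hcon
  obtain ⟨J, hJsub, hJ⟩ := Finset.exists_subset_card_eq (s := ones b) (n := d - i) (by omega)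
  have hb1 : ∀ j ∈ J, |b j| = 1 := fun j hj => mem_ones.1 (hJsub hj)
  have hbb : ∀ j ∈ J, b j * b j = 1 := by
    intro j hj
    have := hb1 j hj
    nlinarith [abs_mul_abs_self (b j)]
  let f : EuclideanSpace ℝ (Fin d) →ₗ[ℝ] ℝ :=
    { toFun := fun x => ∑ j ∈ J, b j * x j
      map_add' := by
        intro x y
        rw [← Finset.sum_add_distrib]
        exact Finset.sum_congr rfl fun j _ => by simp; ring
      map_smul' := by
        intro r x
        simp only [RingHom.id_apply, smul_eq_mul, Finset.mul_sum]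
        exact Finset.sum_congr rfl fun j _ => by simp; ring }
  have hfa : ∀ x, f x = ∑ j ∈ J, b j * x j := fun x => rfl
  have hle1 : ∀ x ∈ cube d, ∀ j ∈ J, b j * x j ≤ 1 := by
    intro x hx j hj
    calc b j * x j ≤ |b j * x j| := le_abs_self _
      _ = |x j| := by rw [abs_mul, hb1 j hj, one_mul]
      _ ≤ 1 := hx j
  have hle : ∀ x ∈ cube d, f x ≤ (J.card : ℝ) := by
    intro x hx
    rw [hfa]
    calc ∑ j ∈ J, b j * x j ≤ ∑ _j ∈ J, (1 : ℝ) := Finset.sum_le_sum (hle1 x hx)
      _ = J.card := by simp
  have heq : f b = (J.card : ℝ) := by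
    rw [hfa, Finset.sum_congr rfl hbb]; simp
  have hJ0 : 0 < J.card := by omega
  have hf0 : f ≠ 0 := by
    intro h0
    rw [h0] at heq
    simp only [LinearMap.zero_apply] at heq
    have : (0 : ℝ) < J.card := by exact_mod_cast hJ0
    linarith
  have hmemF : ∀ x, (x ∈ cube d ∧ f x = (J.card : ℝ)) → ∀ j ∈ J, x j = b j := by
    rintro x ⟨hx, hxe⟩ j hj
    have hs : ∑ j ∈ J, (1 - b j * x j) = 0 := by
      rw [Finset.sum_sub_distrib, ← hfa, hxe]; simp
    have := (Finset.sum_eq_zero_iff_of_nonneg fun j hj => by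
      have := hle1 x hx j hj; linarith).1 hs j hj
    have h1 : b j * x j = 1 := by linarith
    calc x j = (b j * b j) * x j := by rw [hbb j hj, one_mul]
      _ = b j * (b j * x j) := by ring
      _ = b j := by rw [h1, mul_one]
  refine hF {x | x ∈ cube d ∧ f x = (J.card : ℝ)} (Or.inr ⟨f, J.card, hf0, hle, ⟨b, hbc, heq⟩, rfl⟩)
    ?_ ⟨hbc, heq⟩
  -- the dimension
  have hup : Module.finrank ℝ (affineSpan ℝ {x | x ∈ cube d ∧ f x = (J.card : ℝ)}).direction
      ≤ d - J.card := by
    apply finrank_coord_le J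
    intro v hv j hj
    rw [direction_affineSpan, vectorSpan_def] at hv
    induction hv using Submodule.span_induction with
    | mem v hv =>
      obtain ⟨x, hx, y, hy, rfl⟩ := hv
      simp [hmemF x hx j hj, hmemF y hy j hj]
    | zero => simp
    | add v w _ _ h1 h2 => simp [h1, h2]
    | smul r v _ h1 => simp [h1]
  have hpt : pt J (fun j => decide (0 < b j)) ∈
      {x | x ∈ cube d ∧ f x = (J.card : ℝ)} := by
    refine ⟨pt_mem_cube _ _, ?_⟩
    rw [hfa, Finset.sum_congr rfl (g := fun _ => (1 : ℝ))]
    · simp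
    · intro j hj
      rw [pt_apply, if_pos hj]
      rcases (abs_eq (zero_le_one)).1 (hb1 j hj) with h | h
      · simp [h, sgn]
      · simp [h, sgn]
  have hlo := dim_ge J (fun j => decide (0 < b j)) {x | x ∈ cube d ∧ f x = (J.card : ℝ)}
    (Or.inr ⟨f, J.card, hf0, hle, ⟨b, hbc, heq⟩, rfl⟩) hpt _ rfl
  change Module.finrank ℝ _ = i
  omega

/-- The source in the direction `a`. -/
noncomputable def src {d : ℕ} (a : Fin d → Bool) : EuclideanSpace ℝ (Fin d) :=
  WithLp.toLp 2 (fun j => 2 * sgn (a j))

lemma src_apply {d : ℕ} (a : Fin d → Bool) (j : Fin d) : src a j = 2 * sgn (a j) := rfl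

lemma abs_sgn (a : Bool) : |sgn a| = 1 := by cases a <;> simp [sgn]

lemma illum_of_signs {d : ℕ} {b : EuclideanSpace ℝ (Fin d)} (hb : b ∈ cube d)
    (hne : (ones b).Nonempty) (a : Fin d → Bool) (ha : ∀ j ∈ ones b, b j = sgn (a j)) :
    Illuminates (cube d) (src a) b := by
  constructor
  · have hev : ∀ᶠ ε in nhdsWithin (0 : ℝ) (Set.Ioi 0),
        ∀ j : Fin d, |b j + ε * (b j - src a j)| < 1 := by
      rw [Filter.eventually_all]
      intro j
      by_cases hj : j ∈ ones b
      · have h2 : ∀ᶠ ε in nhdsWithin (0 : ℝ) (Set.Ioi 0), ε < 1 :=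
          nhdsWithin_le_nhds (gt_mem_nhds one_pos)
        filter_upwards [h2, self_mem_nhdsWithin] with ε h1 h0
        simp only [Set.mem_Ioi] at h0
        rw [ha j hj, src_apply]
        have : sgn (a j) + ε * (sgn (a j) - 2 * sgn (a j)) = sgn (a j) * (1 - ε) := by ring
        rw [this, abs_mul, abs_sgn, one_mul, abs_lt]
        constructor <;> linarith
      · have h1 : |b j| < 1 := lt_of_le_of_ne (hb j) fun h => hj (mem_ones.2 h)
        have hc : Continuous fun ε : ℝ => |b j + ε * (b j - src a j)| := by fun_prop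
        have : Filter.Tendsto (fun ε : ℝ => |b j + ε * (b j - src a j)|) (nhds 0) (nhds |b j|) := by
          have := hc.tendsto 0
          simpa using this
        exact nhdsWithin_le_nhds (this.eventually (gt_mem_nhds h1))
    obtain ⟨ε, hε, hε0⟩ := (hev.and self_mem_nhdsWithin).exists
    refine ⟨1 + ε, ?_, mem_interior_of fun j => ?_⟩
    · have h0 : (0 : ℝ) < ε := hε0
      linarith
    · have := hε j
      have e : (src a + (1 + ε) • (b - src a)) j = b j + ε * (b j - src a j) := by
        simp only [PiLp.add_apply, PiLp.smul_apply, PiLp.sub_apply, smul_eq_mul]; ring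
      rw [e]; exact this
  · obtain ⟨j, hj⟩ := hne
    ext x
    simp only [Set.mem_inter_iff, Set.mem_singleton_iff]
    constructor
    · rintro ⟨hx, hxc⟩
      rw [segment_eq_image'] at hx
      obtain ⟨τ, ⟨h0, h1⟩, rfl⟩ := hx
      have h2 := hxc j
      simp only [PiLp.add_apply, PiLp.smul_apply, PiLp.sub_apply, smul_eq_mul] at h2
      rw [src_apply, ha j hj] at h2
      have : 2 * sgn (a j) + τ * (sgn (a j) - 2 * sgn (a j)) = sgn (a j) * (2 - τ) := by ring
      rw [this, abs_mul, abs_sgn, one_mul, abs_of_nonneg (by linarith)] at h2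
      have : τ = 1 := by linarith
      rw [this]; simp
    · rintro rfl
      exact ⟨right_mem_segment _ _ _, hb⟩

lemma src_notMem {d : ℕ} (hd : 0 < d) (a : Fin d → Bool) : src a ∉ cube d := by
  intro h
  have := h ⟨0, hd⟩
  rw [src_apply, abs_mul, abs_sgn] at this
  norm_num at this

/-- **Sources for the cube are covering arrays.** -/
theorem cube_iff (d i N : ℕ) (hi : i + 2 ≤ d) :
    (∃ S : Finset (EuclideanSpace ℝ (Fin d)), S.card ≤ N ∧ Illum (cube d) i S) ↔
      ∃ A : Finset (Fin d → Bool), A.card ≤ N ∧ Covers d (d - 1 - i) A := by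
  classical
  constructor
  · rintro ⟨S, hS, -, hill⟩
    refine ⟨S.image (fun s j => decide (0 < s j)), Finset.card_image_le.trans hS, ?_⟩
    intro J hJ ε
    obtain ⟨s, hs, h⟩ := hill (pt J ε) (pt_mem_X J ε (Finset.card_pos.1 (by omega)) (by omega))
    refine ⟨_, Finset.mem_image_of_mem _ hs, fun j hj => ?_⟩
    have := illum_coord J ε s h j hj
    cases h : ε j
    · simp only [h, sgn] at this
      simp at this
      simp; linarith
    · simp only [h, sgn] at this
      simp at this
      simp; linarith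
  · rintro ⟨A, hA, hcov⟩
    refine ⟨A.image src, Finset.card_image_le.trans hA, ?_, ?_⟩
    · intro s hs
      obtain ⟨a, -, rfl⟩ := Finset.mem_image.1 hs
      exact src_notMem (by omega) a
    · intro b hb
      have hbc : b ∈ cube d := (isClosed_cube d).frontier_subset hb.1
      have hne : (ones b).Nonempty := ones_nonempty hbc fun h => by
        have := hb.1
        rw [frontier, Set.mem_sdiff] at this
        exact this.2 h
      have hlt := card_ones_lt (by omega) hb
      obtain ⟨J, hJsup, -, hJ⟩ := Finset.exists_subsuperset_card_eq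
        (Finset.subset_univ (ones b)) (n := d - 1 - i) (by omega) (by simp; omega)
      obtain ⟨a, haA, ha⟩ := hcov J hJ (fun j => decide (0 < b j))
      refine ⟨src a, Finset.mem_image_of_mem _ haA, illum_of_signs hbc hne a ?_⟩
      intro j hj
      rw [ha j (hJsup hj)]
      rcases (abs_eq (zero_le_one)).1 (mem_ones.1 hj) with h | h
      · simp [h, sgn]
      · simp [h, sgn]

end Pool.Agent.Y805.IL
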