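import Mathlib
import Pool.Agent.Y805.IL.Cube

/-! # Bounds for binary covering arrays -/

namespace Pool.Agent.Y805.IL

lemma choose_mid_mono {m n : ℕ} (h : m ≤ n) : m.choose (m / 2) ≤ n.choose (n / 2) := by
  induction n, h using Nat.le_induction with
  | base => exact le_rfl
  | succ n _ ih =>
    refine ih.trans ?_
    calc n.choose (n / 2) ≤ (n + 1).choose (n / 2 + 1) := by
          rw [Nat.choose_succ_succ]; exact Nat.le_add_right _ _
      _ ≤ (n + 1).choose ((n + 1) / 2) := Nat.choose_le_middle _ _

/-- Strength two: at most `C(m, m/2)` columns for `m + 1` rows (Sperner). -/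
lemma strength_two {k : ℕ} (hk : 2 ≤ k) (B : Finset (Fin k → Bool)) (hB : Covers k 2 B) (n : ℕ)
    (hn : n.choose (n / 2) < k) : n + 2 ≤ B.card := by
  classical
  by_contra hcon
  push Not at hcon
  -- a row to normalise with
  obtain ⟨J, hJ⟩ : ∃ J : Finset (Fin k), J.card = 2 := by
    obtain ⟨J, -, hJ⟩ := Finset.exists_subset_card_eq (s := (Finset.univ : Finset (Fin k)))
      (n := 2) (by simpa using hk)
    exact ⟨J, hJ⟩
  obtain ⟨b0, hb0, -⟩ := hB J hJ (fun _ => false)
  let B' := B.erase b0
  have hB' : B'.card ≤ n := by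
    have : B'.card = B.card - 1 := Finset.card_erase_of_mem hb0
    omega
  let C : Fin k → Finset B' := fun j => Finset.univ.filter (fun b => b.1 j ≠ b0 j)
  have hpair : ∀ j j' : Fin k, j ≠ j' → ¬ C j ⊆ C j' := by
    intro j j' hne hsub
    obtain ⟨b, hb, hbe⟩ := hB {j, j'} (Finset.card_pair hne)
      (fun l => if l = j then !(b0 j) else b0 j')
    have h1 : b j = !(b0 j) := by
      have := hbe j (by simp)
      simpa using this
    have h2 : b j' = b0 j' := by
      have := hbe j' (by simp)
      rw [if_neg hne.symm] at this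
      exact this
    have hbb : b ≠ b0 := by
      rintro rfl
      cases h : b j <;> simp [h] at h1
    have hmem : (⟨b, Finset.mem_erase.2 ⟨hbb, hb⟩⟩ : B') ∈ C j := by
      simp only [C, Finset.mem_filter, Finset.mem_univ, true_and]
      rw [h1]
      cases b0 j <;> simp
    have := hsub hmem
    simp only [C, Finset.mem_filter, Finset.mem_univ, true_and] at this
    exact this h2
  have hinj : Function.Injective C := by
    intro j j' h
    by_contra hne
    exact hpair j j' hne (by rw [h])
  have hanti : IsAntichain (· ⊆ ·) ((Finset.univ.image C : Finset (Finset B')) :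
      Set (Finset B')) := by
    intro x hx y hy hxy
    simp only [Finset.coe_image, Finset.coe_univ, Set.image_univ, Set.mem_range] at hx hy
    obtain ⟨j, rfl⟩ := hx
    obtain ⟨j', rfl⟩ := hy
    exact hpair j j' (fun h => hxy (by rw [h]))
  have h1 := hanti.sperner
  rw [Finset.card_image_of_injective _ hinj, Finset.card_univ, Fintype.card_fin,
    Fintype.card_coe] at h1
  have h2 := choose_mid_mono hB'
  omega

/-- Removing the first column: each value of the first column gives an array of smaller strength. -/
lemma split_first {d t : ℕ} (A : Finset (Fin (d + 1) → Bool)) (hA : Covers (d + 1) (t + 1) A)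
    (M : ℕ) (hM : ∀ B : Finset (Fin d → Bool), Covers d t B → M ≤ B.card) : 2 * M ≤ A.card := by
  classical
  have hpart : ∀ c : Bool, M ≤ (A.filter (fun a => a 0 = c)).card := by
    intro c
    have hcov : Covers d t ((A.filter (fun a => a 0 = c)).image Fin.tail) := by
      intro J hJ ε
      obtain ⟨a, ha, hae⟩ := hA (insert 0 (J.map (Fin.succEmb d)))
        (by
          rw [Finset.card_insert_of_notMem, Finset.card_map, hJ]
          simp [Fin.succ_ne_zero])
        (Fin.cons c ε)
      refine ⟨Fin.tail a, ?_, fun j hj => ?_⟩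
      · refine Finset.mem_image_of_mem _ (Finset.mem_filter.2 ⟨ha, ?_⟩)
        have := hae 0 (by simp)
        simpa using this
      · have := hae j.succ (by simp [hj])
        simpa [Fin.tail] using this
    refine (hM _ hcov).trans Finset.card_image_le
  have h := Finset.card_filter_add_card_filter_not (s := A) (fun a : Fin (d + 1) → Bool => a 0 = true)
  have e : A.filter (fun a => ¬ a 0 = true) = A.filter (fun a => a 0 = false) := by
    apply Finset.filter_congr
    intro a _
    simp
  rw [e] at h
  have h1 := hpart true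
  have h2 := hpart false
  omega

lemma strength_lower (r : ℕ) : ∀ (k : ℕ) (M : ℕ),
    (∀ B : Finset (Fin k → Bool), Covers k 2 B → M ≤ B.card) →
    ∀ A : Finset (Fin (k + r) → Bool), Covers (k + r) (2 + r) A → 2 ^ r * M ≤ A.card := by
  induction r with
  | zero => intro k M hM A hA; simpa using hM A hA
  | succ r ih =>
    intro k M hM A hA
    have := split_first (d := k + r) (t := 2 + r) A hA (2 ^ r * M) (fun B hB => ih k M hM B hB)
    rw [pow_succ]
    linarith

/-- **Lower bound for covering arrays.** -/
theorem covers_lower {d t : ℕ} (ht : 2 ≤ t) (htd : t + 2 ≤ d) (n : ℕ)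
    (hn : n.choose (n / 2) < d - t + 2) (A : Finset (Fin d → Bool)) (hA : Covers d t A) :
    2 ^ (t - 2) * (n + 2) ≤ A.card := by
  obtain ⟨r, rfl⟩ : ∃ r, t = 2 + r := ⟨t - 2, by omega⟩
  obtain ⟨k, rfl⟩ : ∃ k, d = k + r := ⟨d - r, by omega⟩
  have := strength_lower r k (n + 2) (fun B hB => strength_two (by omega) B hB n (by omega)) A hA
  simpa using this

/-- **Upper bound for covering arrays**: `2 ^ d / (d - t + 1)` rows are enough. -/
theorem covers_upper {d t : ℕ} (htd : t ≤ d) :
    ∃ A : Finset (Fin d → Bool), (d - t + 1) * A.card ≤ 2 ^ d ∧ Covers d t A := by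
  classical
  let w : (Fin d → Bool) → ℕ := fun a => (Finset.univ.filter (fun j => a j = true)).card
  let q := d - t + 1
  have hq : 0 < q := by omega
  let A : ℕ → Finset (Fin d → Bool) := fun r => Finset.univ.filter (fun a => w a % q = r)
  have hsum : ∑ r ∈ Finset.range q, (A r).card = 2 ^ d := by
    have := Finset.card_eq_sum_card_fiberwise (s := (Finset.univ : Finset (Fin d → Bool)))
      (t := Finset.range q) (f := fun a => w a % q) (fun a _ => by
        simp only [Finset.coe_range, Set.mem_Iio]; exact Nat.mod_lt _ hq)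
    rw [← this]
    simp
  obtain ⟨r, hr, hrc⟩ : ∃ r ∈ Finset.range q, q * (A r).card ≤ 2 ^ d := by
    by_contra hcon
    push Not at hcon
    have h1 : ∑ r ∈ Finset.range q, 2 ^ d < ∑ r ∈ Finset.range q, q * (A r).card :=
      Finset.sum_lt_sum_of_nonempty (Finset.nonempty_range_iff.2 hq.ne') hcon
    rw [← Finset.mul_sum, hsum] at h1
    simp at h1
  refine ⟨A r, hrc, fun J hJ ε => ?_⟩
  rw [Finset.mem_range] at hr
  -- the complement has `q - 1` elements
  have hcc : Jᶜ.card = q - 1 := by rw [Finset.card_compl, Fintype.card_fin, hJ]; omega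
  let m := (J.filter (fun j => ε j = true)).card
  obtain ⟨l, hl, hlm⟩ : ∃ l, l ≤ q - 1 ∧ (m + l) % q = r := by
    refine ⟨(r + (q - m % q)) % q, by have := Nat.mod_lt (r + (q - m % q)) hq; omega, ?_⟩
    rw [Nat.add_mod_mod]
    have h1 := Nat.mod_lt m hq
    have h2 : m + (r + (q - m % q)) = r + q * (m / q + 1) := by
      have := Nat.div_add_mod m q
      have h3 : q * (m / q + 1) = q * (m / q) + q := by ring
      omega
    rw [h2, Nat.add_mul_mod_self_left, Nat.mod_eq_of_lt hr]
  obtain ⟨L, hL, hLc⟩ := Finset.exists_subset_card_eq (s := Jᶜ) (n := l) (by omega)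
  let a : Fin d → Bool := fun j => if j ∈ J then ε j else decide (j ∈ L)
  refine ⟨a, ?_, fun j hj => by simp [a, hj]⟩
  have hset : Finset.univ.filter (fun j => a j = true) = J.filter (fun j => ε j = true) ∪ L := by
    ext j
    simp only [Finset.mem_filter, Finset.mem_univ, true_and, Finset.mem_union, a]
    by_cases hj : j ∈ J
    · have : j ∉ L := fun h => by
        have := hL h
        rw [Finset.mem_compl] at this
        exact this hj
      simp [hj, this]
    · simp [hj]
  have hdisj : Disjoint (J.filter (fun j => ε j = true)) L := by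
    rw [Finset.disjoint_left]
    intro j hj hjL
    have := hL hjL
    rw [Finset.mem_compl] at this
    exact this (Finset.mem_filter.1 hj).1
  simp only [A, Finset.mem_filter, Finset.mem_univ, true_and, w]
  rw [hset, Finset.card_union_of_disjoint hdisj, hLc]
  exact hlm

/-- Strength two: `n + 1` rows are enough for `C(n, n/2 + 1)` columns. -/
theorem covers_two_upper {d n : ℕ} (hd : d ≤ n.choose (n / 2 + 1)) :
    ∃ A : Finset (Fin d → Bool), A.card ≤ n + 1 ∧ Covers d 2 A := by
  classical
  have hcard : Fintype.card (Fin d) ≤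
      (Finset.powersetCard (n / 2 + 1) (Finset.univ : Finset (Fin n))).card := by
    simpa using hd
  obtain ⟨c, hc⟩ : ∃ c : Fin d → Finset (Fin n), Function.Injective c ∧
      ∀ j, (c j).card = n / 2 + 1 := by
    have h2 : Fintype.card (Fin d) ≤ Fintype.card
        (Finset.powersetCard (n / 2 + 1) (Finset.univ : Finset (Fin n))) := by
      rw [Fintype.card_coe]; exact hcard
    obtain ⟨e⟩ := Function.Embedding.nonempty_of_card_le h2
    refine ⟨fun j => (e j).1, fun x y h => e.injective (Subtype.ext h), fun j => ?_⟩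
    exact (Finset.mem_powersetCard.1 (e j).2).2
  let row : Option (Fin n) → Fin d → Bool := fun o => match o with
    | none => fun _ => false
    | some x => fun j => decide (x ∈ c j)
  refine ⟨Finset.univ.image row, Finset.card_image_le.trans (by simp), fun J hJ ε => ?_⟩
  obtain ⟨j, j', hne, rfl⟩ := Finset.card_eq_two.1 hJ
  have key : ∀ o, (row o j = ε j ∧ row o j' = ε j') →
      ∃ a ∈ Finset.univ.image row, ∀ l ∈ ({j, j'} : Finset (Fin d)), a l = ε l := by
    intro o ho
    refine ⟨row o, Finset.mem_image_of_mem _ (Finset.mem_univ _), fun l hl => ?_⟩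
    simp only [Finset.mem_insert, Finset.mem_singleton] at hl
    rcases hl with rfl | rfl
    · exact ho.1
    · exact ho.2
  have hns : ∀ x y : Fin d, x ≠ y → ∃ z, z ∈ c x ∧ z ∉ c y := by
    intro x y hxy
    by_contra hcon
    push Not at hcon
    have hsub : c x ⊆ c y := fun z hz => hcon z hz
    exact hxy (hc.1 (Finset.eq_of_subset_of_card_le hsub (by rw [hc.2, hc.2])))
  have hint : ∃ z, z ∈ c j ∧ z ∈ c j' := by
    by_contra hcon
    push Not at hcon
    have hdis : Disjoint (c j) (c j') := Finset.disjoint_left.2 fun z h1 h2 => hcon z h1 h2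
    have := Finset.card_le_univ (c j ∪ c j')
    rw [Finset.card_union_of_disjoint hdis, hc.2, hc.2, Fintype.card_fin] at this
    omega
  cases h1 : ε j <;> cases h2 : ε j'
  · refine key none ⟨?_, ?_⟩ <;> simp [row, h1, h2]
  · obtain ⟨z, hz1, hz2⟩ := hns j' j hne.symm
    refine key (some z) ⟨?_, ?_⟩ <;> simp [row, h1, h2, hz1, hz2]
  · obtain ⟨z, hz1, hz2⟩ := hns j j' hne
    refine key (some z) ⟨?_, ?_⟩ <;> simp [row, h1, h2, hz1, hz2]
  · obtain ⟨z, hz1, hz2⟩ := hint
    refine key (some z) ⟨?_, ?_⟩ <;> simp [row, h1, h2, hz1, hz2]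

end Pool.Agent.Y805.IL
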