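import Mathlib
import Pool.Agent.Y805.IL.Arr

/-! # Strength two: the exact number of rows (Katona, Kleitman-Spencer) -/

namespace Pool.Agent.Y805.IL

open Finset

/-- The upper shadow does not shrink a family of small sets. -/
lemma card_le_upShadow {N r : ℕ} (F : Finset (Finset (Fin N))) (hF : ∀ A ∈ F, A.card = r)
    (hr : r + 1 ≤ N - r) : F.card ≤ (upShadow F).card := by
  classical
  have h := card_mul_le_card_mul (s := F) (t := upShadow F) (fun A G : Finset (Fin N) => A ⊆ G)
    (m := N - r) (n := r + 1) ?_ ?_
  · have h1 : 0 < N - r := by omega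
    have h2 : F.card * (N - r) ≤ (upShadow F).card * (N - r) :=
      h.trans (Nat.mul_le_mul_left _ hr)
    exact Nat.le_of_mul_le_mul_right h2 h1
  · intro A hA
    have hc : (Aᶜ).card = N - r := by rw [card_compl, Fintype.card_fin, hF A hA]
    rw [← hc]
    have hinj : Set.InjOn (fun x => insert x A) (Aᶜ : Finset (Fin N)) := by
      intro x hx y hy hxy
      simp only [coe_compl, Set.mem_compl_iff, mem_coe] at hx hy
      have : x ∈ insert y A := by
        rw [← show insert x A = insert y A from hxy]; exact mem_insert_self _ _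
      rcases mem_insert.1 this with h | h
      · exact h
      · exact absurd h hx
    rw [← card_image_of_injOn hinj]
    apply card_le_card
    intro G hG
    obtain ⟨x, hx, rfl⟩ := mem_image.1 hG
    rw [mem_compl] at hx
    rw [mem_bipartiteAbove]
    exact ⟨insert_mem_upShadow hA hx, subset_insert _ _⟩
  · intro G hG
    obtain ⟨A, hA, a, ha, rfl⟩ := mem_upShadow_iff.1 hG
    have hGc : (insert a A).card = r + 1 := by rw [card_insert_of_notMem ha, hF A hA]
    rw [← hGc]
    refine (card_le_card (t := (insert a A).image (fun x => (insert a A).erase x)) ?_).trans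
      card_image_le
    intro B hB
    rw [mem_bipartiteBelow] at hB
    obtain ⟨hBF, hsub⟩ := hB
    have hBc := hF B hBF
    obtain ⟨x, hx⟩ : ((insert a A) \ B).Nonempty := by
      rw [← card_pos, card_sdiff_of_subset hsub, hGc, hBc]; omega
    rw [mem_sdiff] at hx
    refine mem_image.2 ⟨x, hx.1, ?_⟩
    symm
    apply eq_of_subset_of_card_le
    · intro y hy
      exact mem_erase.2 ⟨fun h => hx.2 (h ▸ hy), hsub hy⟩
    · rw [card_erase_of_mem hx.1, hGc, hBc]; omega

/-- An intersecting antichain of sets of size at most `N / 2`. -/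
lemma antichain_bound {N : ℕ} (m : ℕ) : ∀ (F : Finset (Finset (Fin N))),
    (∀ A ∈ F, ∀ B ∈ F, ¬ Disjoint A B) → (∀ A ∈ F, ∀ B ∈ F, A ⊆ B → A = B) →
    (∀ A ∈ F, A.card ≤ N / 2) → (∀ A ∈ F, N / 2 ≤ A.card + m) →
    F.card ≤ (N - 1).choose (N / 2 - 1) := by
  classical
  induction m with
  | zero =>
    intro F hint _ hup hlo
    refine erdos_ko_rado (n := N) (r := N / 2) ?_ ?_ le_rfl
    · intro A hA B hB
      exact hint A (by exact_mod_cast hA) B (by exact_mod_cast hB)
    · intro A hA
      have h1 := hup A (by exact_mod_cast hA)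
      have h2 := hlo A (by exact_mod_cast hA)
      omega
  | succ m ih =>
    intro F hint hanti hup hlo
    by_cases hm : N / 2 < m + 1
    · exact ih F hint hanti hup (fun A hA => by have := hlo A hA; omega)
    push Not at hm
    set r := N / 2 - (m + 1) with hr
    let F0 := F.filter (fun A => A.card = r)
    let F1 := F.filter (fun A => ¬ A.card = r)
    have hsplit : F0.card + F1.card = F.card := card_filter_add_card_filter_not _
    have hF0 : ∀ A ∈ F0, A ∈ F ∧ A.card = r := fun A hA => mem_filter.1 hA
    have hF1 : ∀ A ∈ F1, A ∈ F ∧ r < A.card := by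
      intro A hA
      obtain ⟨h1, h2⟩ := mem_filter.1 hA
      refine ⟨h1, ?_⟩
      have := hlo A h1
      omega
    have hup0 : ∀ G ∈ upShadow F0, ∃ A ∈ F0, A ⊆ G ∧ G.card = r + 1 := by
      intro G hG
      obtain ⟨A, hA, a, ha, rfl⟩ := mem_upShadow_iff.1 hG
      exact ⟨A, hA, subset_insert _ _, by rw [card_insert_of_notMem ha, (hF0 A hA).2]⟩
    have hdis : Disjoint (upShadow F0) F1 := by
      rw [disjoint_left]
      intro G hG hG1
      obtain ⟨A, hA, hsub, hc⟩ := hup0 G hG
      have := hanti A (hF0 A hA).1 G (hF1 G hG1).1 hsub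
      rw [← this, (hF0 A hA).2] at hc
      omega
    have hcard : F.card ≤ (upShadow F0 ∪ F1).card := by
      rw [card_union_of_disjoint hdis, ← hsplit]
      have := card_le_upShadow (r := r) F0 (fun A hA => (hF0 A hA).2) (by omega)
      omega
    refine hcard.trans (ih _ ?_ ?_ ?_ ?_)
    · have hex : ∀ G ∈ upShadow F0 ∪ F1, ∃ A ∈ F, A ⊆ G := by
        intro G hG
        rcases mem_union.1 hG with h | h
        · obtain ⟨A, hA, hsub, -⟩ := hup0 G h
          exact ⟨A, (hF0 A hA).1, hsub⟩
        · exact ⟨G, (hF1 G h).1, Subset.rfl⟩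
      intro G hG H hH hGH
      obtain ⟨A, hA, h1⟩ := hex G hG
      obtain ⟨B, hB, h2⟩ := hex H hH
      exact hint A hA B hB (disjoint_of_subset_left h1 (disjoint_of_subset_right h2 hGH))
    · intro G hG H hH hsub
      rcases mem_union.1 hG with h | h
      · obtain ⟨A, hA, hAG, hGc⟩ := hup0 G h
        rcases mem_union.1 hH with h' | h'
        · obtain ⟨-, -, -, hHc⟩ := hup0 H h'
          exact eq_of_subset_of_card_le hsub (by omega)
        · have := hanti A (hF0 A hA).1 H (hF1 H h').1 (hAG.trans hsub)
          have h3 := (hF1 H h').2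
          rw [← this, (hF0 A hA).2] at h3
          omega
      · rcases mem_union.1 hH with h' | h'
        · obtain ⟨-, -, -, hHc⟩ := hup0 H h'
          have := (hF1 G h).2
          exact eq_of_subset_of_card_le hsub (by omega)
        · exact hanti G (hF1 G h).1 H (hF1 H h').1 hsub
    · intro G hG
      rcases mem_union.1 hG with h | h
      · obtain ⟨-, -, -, hGc⟩ := hup0 G h
        omega
      · exact hup G (hF1 G h).1
    · intro G hG
      rcases mem_union.1 hG with h | h
      · obtain ⟨-, -, -, hGc⟩ := hup0 G h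
        omega
      · have := (hF1 G h).2
        omega

/-- The number of columns of an array of strength two with `N` rows. -/
def cols (N : ℕ) : ℕ := (N - 1).choose (N / 2 - 1)

/-- **Strength two, upper bound for the number of columns.** -/
theorem strength_two_card {k : ℕ} (hk : 2 ≤ k) (B : Finset (Fin k → Bool)) (hB : Covers k 2 B) :
    k ≤ cols B.card := by
  classical
  let e : B ≃ Fin B.card := B.equivFin
  let A : Fin k → Bool → Finset (Fin B.card) := fun j c => univ.filter (fun x => (e.symm x).1 j = c)
  have hpat : ∀ j j' : Fin k, j ≠ j' → ∀ c c' : Bool, ∃ x, x ∈ A j c ∧ x ∈ A j' c' := by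
    intro j j' hne c c'
    obtain ⟨b, hb, hbe⟩ := hB {j, j'} (card_pair hne) (fun l => if l = j then c else c')
    refine ⟨e ⟨b, hb⟩, ?_, ?_⟩
    · simp only [A, mem_filter, mem_univ, true_and, Equiv.symm_apply_apply]
      have := hbe j (by simp)
      simpa using this
    · simp only [A, mem_filter, mem_univ, true_and, Equiv.symm_apply_apply]
      have := hbe j' (by simp)
      rw [if_neg hne.symm] at this
      exact this
  have hsum : ∀ j, (A j true).card + (A j false).card = B.card := by
    intro j
    have h := card_filter_add_card_filter_not (s := (univ : Finset (Fin B.card)))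
      (fun x => (e.symm x).1 j = true)
    have e1 : (univ : Finset (Fin B.card)).filter (fun x => ¬ (e.symm x).1 j = true) = A j false := by
      apply filter_congr
      intro x _
      simp
    rw [e1] at h
    simpa using h
  let s : Fin k → Bool := fun j => decide ((A j true).card ≤ B.card / 2)
  let C : Fin k → Finset (Fin B.card) := fun j => A j (s j)
  have hC : ∀ j, (C j).card ≤ B.card / 2 := by
    intro j
    by_cases h : (A j true).card ≤ B.card / 2
    · have : s j = true := by simp [s, h]
      simp only [C, this]; exact h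
    · have : s j = false := by simp [s, h]
      simp only [C, this]
      have := hsum j
      omega
  have hnot : ∀ j c x, x ∈ A j c → x ∉ A j (!c) := by
    intro j c x hx hx'
    simp only [A, mem_filter, mem_univ, true_and] at hx hx'
    rw [hx] at hx'
    cases c <;> simp at hx'
  have hsub : ∀ j j' : Fin k, C j ⊆ C j' → j = j' := by
    intro j j' h
    by_contra hne
    obtain ⟨x, hx1, hx2⟩ := hpat j j' hne (s j) (!(s j'))
    have h1 := h hx1
    have h2 := hnot j' (s j') x h1
    exact h2 hx2
  have hinj : Function.Injective C := fun j j' h => hsub j j' (by rw [h])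
  have hne : ∀ j j' : Fin k, ¬ Disjoint (C j) (C j') := by
    intro j j' hd
    rw [disjoint_left] at hd
    by_cases h : j = j'
    · subst h
      obtain ⟨j', hj'⟩ : ∃ j' : Fin k, j ≠ j' := by
        have : 1 < Fintype.card (Fin k) := by simp; omega
        obtain ⟨j', h⟩ := Fintype.exists_ne_of_one_lt_card this j
        exact ⟨j', h.symm⟩
      obtain ⟨x, hx, -⟩ := hpat j j' hj' (s j) true
      exact hd hx hx
    · obtain ⟨x, hx1, hx2⟩ := hpat j j' h (s j) (s j')
      exact hd hx1 hx2
  have := antichain_bound (N := B.card) (B.card / 2) (univ.image C) ?_ ?_ ?_ ?_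
  · rw [card_image_of_injective _ hinj, card_univ, Fintype.card_fin] at this
    exact this
  · intro X hX Y hY
    obtain ⟨j, -, rfl⟩ := mem_image.1 hX
    obtain ⟨j', -, rfl⟩ := mem_image.1 hY
    exact hne j j'
  · intro X hX Y hY h
    obtain ⟨j, -, rfl⟩ := mem_image.1 hX
    obtain ⟨j', -, rfl⟩ := mem_image.1 hY
    rw [hsub j j' h]
  · intro X hX
    obtain ⟨j, -, rfl⟩ := mem_image.1 hX
    exact hC j
  · intro X _
    omega

lemma cols_succ (N : ℕ) (hN : 2 ≤ N) : cols N ≤ cols (N + 1) := by
  unfold cols
  rcases Nat.even_or_odd' N with ⟨m, rfl | rfl⟩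
  · have e1 : 2 * m / 2 - 1 = m - 1 := by omega
    have e2 : (2 * m + 1) / 2 - 1 = m - 1 := by omega
    rw [e1, e2]
    exact Nat.choose_le_choose _ (by omega)
  · have e1 : (2 * m + 1) / 2 - 1 = m - 1 := by omega
    have e2 : (2 * m + 1 + 1) / 2 - 1 = m := by omega
    have e3 : 2 * m + 1 - 1 = 2 * m := by omega
    have e4 : 2 * m + 1 + 1 - 1 = 2 * m + 1 := by omega
    rw [e1, e2, e3, e4]
    obtain ⟨l, rfl⟩ : ∃ l, m = l + 1 := ⟨m - 1, by omega⟩
    rw [Nat.choose_succ_succ]
    simp

lemma cols_small {N : ℕ} (hN : N ≤ 3) : cols N = 1 := by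
  interval_cases N <;> simp [cols]

lemma cols_mono {N M : ℕ} (h : N ≤ M) : cols N ≤ cols M := by
  induction M, h using Nat.le_induction with
  | base => exact le_rfl
  | succ M _ ih =>
    by_cases hM : 2 ≤ M
    · exact ih.trans (cols_succ M hM)
    · rw [cols_small (by omega : N ≤ 3), cols_small (by omega : M + 1 ≤ 3)]

/-- **Strength two**: `N` rows are enough for `k` columns if and only if `k ≤ C(N-1, N/2-1)`. -/
theorem strength_two_iff {k : ℕ} (hk : 2 ≤ k) (N : ℕ) :
    (∃ B : Finset (Fin k → Bool), B.card ≤ N ∧ Covers k 2 B) ↔ k ≤ cols N := by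
  constructor
  · rintro ⟨B, hBN, hB⟩
    exact (strength_two_card hk B hB).trans (cols_mono hBN)
  · intro h
    have hN : 4 ≤ N := by
      by_contra hcon
      rw [cols_small (by omega)] at h
      omega
    obtain ⟨n, rfl⟩ : ∃ n, N = n + 1 := ⟨N - 1, by omega⟩
    refine covers_two_upper (h.trans ?_)
    unfold cols
    have e : n + 1 - 1 = n := by omega
    rw [e]
    have h1 : (n + 1) / 2 - 1 ≤ n := by omega
    rw [← Nat.choose_symm h1]
    apply le_of_eq
    congr 1
    omega

/-- **Lower bound**: if `M` rows are not enough for strength two and `d - t + 2` columns, then more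
than `M * 2 ^ (t - 2)` rows are needed. -/
theorem covers_lower' {d t : ℕ} (ht : 2 ≤ t) (htd : t ≤ d) (M : ℕ) (hM : cols M < d - t + 2)
    (A : Finset (Fin d → Bool)) (hA : Covers d t A) : 2 ^ (t - 2) * (M + 1) ≤ A.card := by
  obtain ⟨r, rfl⟩ : ∃ r, t = 2 + r := ⟨t - 2, by omega⟩
  obtain ⟨k, rfl⟩ : ∃ k, d = k + r := ⟨d - r, by omega⟩
  have := strength_lower r k (M + 1) (fun B hB => by
    by_contra hcon
    push Not at hcon
    have h1 := (strength_two_iff (k := k) (by omega) M).1 ⟨B, by omega, hB⟩
    omega) A hA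
  simpa using this

/-- The trivial lower bound. -/
theorem covers_trivial {d t : ℕ} (htd : t ≤ d) (A : Finset (Fin d → Bool)) (hA : Covers d t A) :
    2 ^ t ≤ A.card := by
  classical
  obtain ⟨J, -, hJ⟩ := exists_subset_card_eq (s := (univ : Finset (Fin d))) (n := t) (by simpa)
  have hsurj : Set.SurjOn (fun (a : Fin d → Bool) => (fun j : J => a j.1)) (A : Set (Fin d → Bool))
      (univ : Finset (J → Bool)) := by
    intro g _
    obtain ⟨a, ha, hae⟩ := hA J hJ (fun j => if h : j ∈ J then g ⟨j, h⟩ else false)
    refine ⟨a, by exact_mod_cast ha, ?_⟩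
    funext j
    have := hae j.1 j.2
    simpa using this
  have := card_le_card_of_surjOn _ hsurj
  simpa [hJ] using this

end Pool.Agent.Y805.IL
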