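import Mathlib
import Pool.Agent.Y805.IL.Kat

/-! # Strength `d - 2`: the exact number of rows is `⌊2^d / 3⌋` (hitting all squares of the cube) -/

namespace Pool.Agent.Y805.IL

open Finset

/-- `A` meets every two-dimensional face of the cube with coordinate set `ι`. -/
def Hit (ι : Type) [Fintype ι] (A : Finset (ι → Bool)) : Prop :=
  ∀ J : Finset ι, J.card + 2 = Fintype.card ι → ∀ ε : ι → Bool, ∃ a ∈ A, ∀ j ∈ J, a j = ε j

open Classical in
/-- the rows with prescribed values on `J0` -/
noncomputable def slice {ι : Type} (A : Finset (ι → Bool)) (J0 : Finset ι) (ε0 : ι → Bool) :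
    Finset (ι → Bool) := A.filter (fun a => ∀ j ∈ J0, a j = ε0 j)

lemma mem_slice {ι : Type} {A : Finset (ι → Bool)} {J0 : Finset ι} {ε0 a : ι → Bool} :
    a ∈ slice A J0 ε0 ↔ a ∈ A ∧ ∀ j ∈ J0, a j = ε0 j := by
  classical
  simp [slice]

/-- The bound for a smaller cube applies to a slice. -/
lemma slice_ge {ι : Type} [Fintype ι] {A : Finset (ι → Bool)} (hA : Hit ι A) (J0 : Finset ι)
    (ε0 : ι → Bool) {n M : ℕ} (hn : J0.card + n = Fintype.card ι)
    (hM : ∀ (κ : Type) [Fintype κ], Fintype.card κ = n → ∀ B : Finset (κ → Bool), Hit κ B →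
      M ≤ B.card) : M ≤ (slice A J0 ε0).card := by
  classical
  have hcard : Fintype.card {j : ι // j ∉ J0} = n := by
    rw [Fintype.card_subtype_compl]
    simp
    omega
  refine (hM {j : ι // j ∉ J0} hcard
    ((slice A J0 ε0).image (fun a => fun j : {j : ι // j ∉ J0} => a j.1)) ?_).trans card_image_le
  intro J hJ ε
  have hdis : Disjoint J0 (J.map (Function.Embedding.subtype _)) := by
    rw [disjoint_left]
    intro j hj hj'
    obtain ⟨l, -, rfl⟩ := mem_map.1 hj'
    exact l.2 hj
  obtain ⟨a, ha, hae⟩ := hA (J0 ∪ J.map (Function.Embedding.subtype _))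
    (by rw [card_union_of_disjoint hdis, card_map]; omega)
    (fun j => if h : j ∈ J0 then ε0 j else ε ⟨j, h⟩)
  refine ⟨fun j => a j.1, mem_image_of_mem _ (mem_slice.2 ⟨ha, fun j hj => ?_⟩), fun j hj => ?_⟩
  · rw [hae j (mem_union_left _ hj), dif_pos hj]
  · change a j.1 = ε j
    rw [hae j.1 (mem_union_right _ (mem_map_of_mem _ hj)), dif_neg j.2]

lemma pow_mod_three (n : ℕ) : 4 ^ n % 3 = 1 := by
  rw [Nat.pow_mod]; simp

/-- **Hitting all squares of the `d`-cube needs `⌊2^d/3⌋` vertices.** -/
theorem hit_lower : ∀ (d : ℕ) (ι : Type) [Fintype ι], Fintype.card ι = d →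
    ∀ A : Finset (ι → Bool), Hit ι A → 2 ^ d / 3 ≤ A.card := by
  classical
  intro d
  induction d using Nat.strong_induction_on with
  | _ d ih =>
  intro ι _ hd A hA
  rcases Nat.lt_or_ge d 2 with h2 | h2
  · interval_cases d <;> simp
  rcases Nat.even_or_odd' d with ⟨m, hm | hm⟩
  · rcases Nat.lt_or_ge d 4 with h4 | h4
    · -- `d = 2`
      have hd2 : d = 2 := by omega
      subst hd2
      obtain ⟨a, ha, -⟩ := hA ∅ (by simp [hd]) (fun _ => false)
      have : 0 < A.card := card_pos.2 ⟨a, ha⟩
      have e : 2 ^ 2 / 3 = 1 := by norm_num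
      rw [e]
      exact this
    · -- `d` even, at least four
      obtain ⟨q, hq⟩ : ∃ q, 2 ^ (d - 4) = 3 * q + 1 := by
        refine ⟨2 ^ (d - 4) / 3, ?_⟩
        have e : 2 ^ (d - 4) = 4 ^ (m - 2) := by
          rw [show (4 : ℕ) = 2 ^ 2 by norm_num, ← pow_mul]; congr 1; omega
        have h1 := pow_mod_three (m - 2)
        rw [← e] at h1
        omega
      have hq2 : 2 ^ (d - 2) = 4 * 2 ^ (d - 4) := by
        rw [show d - 2 = (d - 4) + 2 by omega, pow_add]; ring
      have hq4 : 2 ^ d = 16 * 2 ^ (d - 4) := by
        conv_lhs => rw [show d = (d - 4) + 4 by omega, pow_add]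
        ring
      have hcardι : 4 ≤ Fintype.card ι := by omega
      obtain ⟨φ⟩ : Nonempty (Fin 4 ↪ ι) :=
        Function.Embedding.nonempty_of_card_le (by simpa using hcardι)
      -- slices over the four coordinates
      let ext : (Fin 4 → Bool) → ι → Bool := fun x j => if h : ∃ i, φ i = j then x h.choose else false
      have hext : ∀ x i, ext x (φ i) = x i := by
        intro x i
        have h : ∃ i', φ i' = φ i := ⟨i, rfl⟩
        simp only [ext, dif_pos h]
        rw [φ.injective h.choose_spec]
      let n : (Fin 4 → Bool) → ℕ := fun x => (slice A (univ.map φ) (ext x)).card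
      have hn : ∀ x, q ≤ n x := by
        intro x
        have h1 : q = 2 ^ (d - 4) / 3 := by omega
        rw [h1]
        exact slice_ge hA (univ.map φ) (ext x) (n := d - 4) (by simp; omega)
          (fun κ _ hκ B hB => ih (d - 4) (by omega) κ hκ B hB)
      have hsl : ∀ x, slice A (univ.map φ) (ext x) = A.filter (fun a => (fun i => a (φ i)) = x) := by
        intro x
        ext a
        rw [mem_slice, mem_filter]
        refine and_congr_right fun _ => ?_
        constructor
        · intro h
          funext i
          rw [h (φ i) (mem_map_of_mem _ (mem_univ _)), hext]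
        · rintro rfl j hj
          obtain ⟨i, -, rfl⟩ := mem_map.1 hj
          exact (hext (fun i => a (φ i)) i).symm
      have htotal : A.card = ∑ x, n x := by
        rw [card_eq_sum_card_fiberwise (f := fun a => fun i => a (φ i)) (t := univ)
          (fun _ _ => mem_coe.2 (mem_univ _))]
        exact sum_congr rfl fun x _ => by simp only [n]; rw [hsl]
      let Y : Finset (Fin 4 → Bool) := univ.filter (fun x => q + 1 ≤ n x)
      have hY : Covers 4 2 Y := by
        intro J hJ ε
        have hface : 4 * q + 1 ≤ (slice A (J.map φ) (ext ε)).card := by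
          have h1 : 4 * q + 1 = 2 ^ (d - 2) / 3 := by omega
          rw [h1]
          exact slice_ge hA (J.map φ) (ext ε) (n := d - 2) (by rw [card_map]; omega)
            (fun κ _ hκ B hB => ih (d - 2) (by omega) κ hκ B hB)
        by_contra hcon
        push Not at hcon
        have hsum : (slice A (J.map φ) (ext ε)).card =
            ∑ x ∈ univ.filter (fun x : Fin 4 → Bool => ∀ j ∈ J, x j = ε j), n x := by
          rw [card_eq_sum_card_fiberwise (f := fun a => fun i => a (φ i))
            (t := univ.filter (fun x : Fin 4 → Bool => ∀ j ∈ J, x j = ε j))]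
          · refine sum_congr rfl fun x hx => ?_
            simp only [n]
            rw [hsl]
            congr 1
            ext a
            rw [mem_filter, mem_filter, mem_slice]
            constructor
            · rintro ⟨⟨h1, -⟩, h2⟩
              exact ⟨h1, h2⟩
            · rintro ⟨h1, rfl⟩
              refine ⟨⟨h1, fun j hj => ?_⟩, rfl⟩
              obtain ⟨i, hi, rfl⟩ := mem_map.1 hj
              rw [hext]
              exact (mem_filter.1 hx).2 i hi
          · intro a ha
            have ha' := mem_slice.1 (mem_coe.1 ha)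
            refine mem_coe.2 (mem_filter.2 ⟨mem_univ _, fun j hj => ?_⟩)
            have := ha'.2 (φ j) (mem_map_of_mem _ hj)
            rw [hext] at this
            exact this
        have hle : ∀ x ∈ univ.filter (fun x : Fin 4 → Bool => ∀ j ∈ J, x j = ε j), n x ≤ q := by
          intro x hx
          by_contra hlt
          push Not at hlt
          obtain ⟨j, hj, hne⟩ := hcon x (mem_filter.2 ⟨mem_univ _, hlt⟩)
          exact hne ((mem_filter.1 hx).2 j hj)
        have hcount : (univ.filter (fun x : Fin 4 → Bool => ∀ j ∈ J, x j = ε j)).card ≤ 4 := by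
          have hJc : (Jᶜ).card = 2 := by rw [card_compl, hJ]; simp
          have hinj : Set.InjOn (fun (x : Fin 4 → Bool) => (fun j : (Jᶜ : Finset (Fin 4)) => x j.1))
              (univ.filter (fun x : Fin 4 → Bool => ∀ j ∈ J, x j = ε j) : Finset _) := by
            intro x hx y hy hxy
            have hx' := (mem_filter.1 (mem_coe.1 hx)).2
            have hy' := (mem_filter.1 (mem_coe.1 hy)).2
            funext j
            by_cases hj : j ∈ J
            · rw [hx' j hj, hy' j hj]
            · exact congrFun hxy ⟨j, mem_compl.2 hj⟩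
          have := card_le_card_of_injOn _ (t := (univ : Finset ((Jᶜ : Finset (Fin 4)) → Bool)))
            (fun _ _ => mem_coe.2 (mem_univ _)) hinj
          refine this.trans ?_
          rw [card_univ, Fintype.card_fun, Fintype.card_bool, Fintype.card_coe, hJc]
          norm_num
        have := sum_le_card_nsmul _ _ q hle
        rw [← hsum, smul_eq_mul] at this
        have h5 : (univ.filter (fun x : Fin 4 → Bool => ∀ j ∈ J, x j = ε j)).card * q ≤ 4 * q :=
          Nat.mul_le_mul_right _ hcount
        omega
      have hY5 : 5 ≤ Y.card := by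
        by_contra hlt
        push Not at hlt
        have h1 := strength_two_card (by norm_num) Y hY
        have h2 := cols_mono (show Y.card ≤ 4 by omega)
        have h3 : cols 4 = 3 := by decide
        omega
      have hsum2 : 16 * q + Y.card ≤ A.card := by
        rw [htotal]
        have h1 : ∑ x : Fin 4 → Bool, (q + if q + 1 ≤ n x then 1 else 0) ≤ ∑ x, n x := by
          refine sum_le_sum fun x _ => ?_
          have := hn x
          split_ifs <;> omega
        rw [sum_add_distrib, sum_const, card_univ, Fintype.card_fun, Fintype.card_bool,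
          Fintype.card_fin, ← card_filter] at h1
        norm_num at h1
        exact h1
      omega
  · -- `d` odd
    obtain ⟨q, hq⟩ : ∃ q, 2 ^ (d - 1) = 3 * q + 1 := by
      refine ⟨2 ^ (d - 1) / 3, ?_⟩
      have e : 2 ^ (d - 1) = 4 ^ m := by
        rw [show (4 : ℕ) = 2 ^ 2 by norm_num, ← pow_mul]; congr 1; omega
      have h1 := pow_mod_three m
      rw [← e] at h1
      omega
    have hq2 : 2 ^ d = 2 * 2 ^ (d - 1) := by
      conv_lhs => rw [show d = (d - 1) + 1 by omega, pow_succ]
      ring
    obtain ⟨j0⟩ : Nonempty ι := Fintype.card_pos_iff.1 (by omega)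
    have hs : ∀ c : Bool, q ≤ (slice A {j0} (fun _ => c)).card := by
      intro c
      have h1 : q = 2 ^ (d - 1) / 3 := by omega
      rw [h1]
      exact slice_ge hA {j0} (fun _ => c) (n := d - 1) (by rw [card_singleton]; omega)
        (fun κ _ hκ B hB => ih (d - 1) (by omega) κ hκ B hB)
    have hdis : Disjoint (slice A {j0} (fun _ => true)) (slice A {j0} (fun _ => false)) := by
      rw [disjoint_left]
      intro a h1 h2
      have e1 := (mem_slice.1 h1).2 j0 (mem_singleton_self _)
      have e2 := (mem_slice.1 h2).2 j0 (mem_singleton_self _)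
      rw [e1] at e2
      exact absurd e2 (by simp)
    have hsub : slice A {j0} (fun _ => true) ∪ slice A {j0} (fun _ => false) ⊆ A := by
      intro a ha
      rcases mem_union.1 ha with h | h
      · exact (mem_slice.1 h).1
      · exact (mem_slice.1 h).1
    have h1 := card_le_card hsub
    rw [card_union_of_disjoint hdis] at h1
    have h2 := hs true
    have h3 := hs false
    omega

/-- **Strength `d - 2`**: `N` rows are enough if and only if `⌊2^d/3⌋ ≤ N`. -/
theorem strength_codim_two {d : ℕ} (hd : 2 ≤ d) (N : ℕ) :
    (∃ A : Finset (Fin d → Bool), A.card ≤ N ∧ Covers d (d - 2) A) ↔ 2 ^ d / 3 ≤ N := by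
  constructor
  · rintro ⟨A, hAN, hA⟩
    refine (hit_lower d (Fin d) (by simp) A ?_).trans hAN
    intro J hJ ε
    rw [Fintype.card_fin] at hJ
    exact hA J (by omega) ε
  · intro h
    obtain ⟨A, hA, hcov⟩ := covers_upper (d := d) (t := d - 2) (by omega)
    refine ⟨A, ?_, hcov⟩
    have e : d - (d - 2) + 1 = 3 := by omega
    rw [e] at hA
    omega

end Pool.Agent.Y805.IL
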