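import Mathlib
import Pool.Agent.Y805.IL.Cube

/-! # Facets of polytopes and two sources for the relative interiors of the facets -/

namespace Pool.Agent.Y805.IL

open Pool.Agent.Results.MP_22e672_co.CubeDisproof Module

section Gen

variable {E : Type*} [AddCommGroup E] [Module ℝ E]

open Classical in
/-- The points of `V` at which `f` takes the value `f b`. -/
noncomputable def lev (V : Finset E) (f : E →ₗ[ℝ] ℝ) (b : E) : Finset E :=
  V.filter (fun v => f v = f b)

lemma mem_lev {V : Finset E} {f : E →ₗ[ℝ] ℝ} {b v : E} : v ∈ lev V f b ↔ v ∈ V ∧ f v = f b := by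
  simp [lev]

lemma le_of_hull {V : Finset E} {f : E →ₗ[ℝ] ℝ} {c : ℝ} (h : ∀ v ∈ V, f v ≤ c) {x : E}
    (hx : x ∈ convexHull ℝ (V : Set E)) : f x ≤ c := by
  have : convexHull ℝ (V : Set E) ⊆ {x | f x ≤ c} :=
    convexHull_min (fun v hv => h v hv) (convex_halfSpace_le f.isLinear c)
  exact this hx

lemma mem_hull_lev {V : Finset E} {f : E →ₗ[ℝ] ℝ} {b x : E} (h : ∀ v ∈ V, f v ≤ f b)
    (hx : x ∈ convexHull ℝ (V : Set E)) (hfx : f x = f b) :
    x ∈ convexHull ℝ (lev V f b : Set E) := by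
  classical
  rw [Finset.mem_convexHull'] at hx ⊢
  obtain ⟨w, hw0, hw1, hwx⟩ := hx
  have hs : ∑ y ∈ V, w y * (f b - f y) = 0 := by
    have e : f x = ∑ y ∈ V, w y * f y := by
      rw [← hwx, map_sum]
      exact Finset.sum_congr rfl fun y _ => by rw [map_smul, smul_eq_mul]
    calc ∑ y ∈ V, w y * (f b - f y) = ∑ y ∈ V, (w y * f b - w y * f y) :=
          Finset.sum_congr rfl fun y _ => by ring
      _ = (∑ y ∈ V, w y) * f b - ∑ y ∈ V, w y * f y := by
          rw [Finset.sum_sub_distrib, Finset.sum_mul]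
      _ = 0 := by rw [hw1, ← e, hfx]; ring
  have hz : ∀ y ∈ V, y ∉ lev V f b → w y = 0 := by
    intro y hy hyl
    have h1 := (Finset.sum_eq_zero_iff_of_nonneg fun y hy =>
      mul_nonneg (hw0 y hy) (sub_nonneg.2 (h y hy))).1 hs y hy
    rcases mul_eq_zero.1 h1 with h2 | h2
    · exact h2
    · exact absurd (mem_lev.2 ⟨hy, by linarith⟩) hyl
  have hsub : lev V f b ⊆ V := fun y hy => (mem_lev.1 hy).1
  refine ⟨w, fun y hy => hw0 y (hsub hy), ?_, ?_⟩
  · rw [← hw1]; exact Finset.sum_subset hsub fun y hy hyl => hz y hy hyl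
  · rw [← hwx]; exact Finset.sum_subset hsub fun y hy hyl => by rw [hz y hy hyl, zero_smul]

lemma vs_le_ker {W : Set E} {f : E →ₗ[ℝ] ℝ} {c : ℝ} (h : ∀ w ∈ W, f w = c) :
    vectorSpan ℝ W ≤ LinearMap.ker f := by
  rw [vectorSpan_def, Submodule.span_le]
  rintro _ ⟨x, hx, y, hy, rfl⟩
  simp [h x hx, h y hy]

lemma lev_le_ker (V : Finset E) (f : E →ₗ[ℝ] ℝ) (b : E) :
    vectorSpan ℝ (lev V f b : Set E) ≤ LinearMap.ker f :=
  vs_le_ker (c := f b) fun w hw => (mem_lev.1 (by exact_mod_cast hw)).2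

lemma eq_of_ker {W : Finset E} {g : E →ₗ[ℝ] ℝ} {b : E} (hb : b ∈ convexHull ℝ (W : Set E))
    (hg : vectorSpan ℝ (W : Set E) ≤ LinearMap.ker g) {w : E} (hw : w ∈ W) : g w = g b := by
  have h1 : b ∈ affineSpan ℝ (W : Set E) := convexHull_subset_affineSpan _ hb
  have h2 : w ∈ affineSpan ℝ (W : Set E) := subset_affineSpan ℝ _ (by exact_mod_cast hw)
  have h3 := AffineSubspace.vsub_mem_direction h2 h1
  rw [direction_affineSpan] at h3
  have h4 := hg h3
  rw [LinearMap.mem_ker, vsub_eq_sub, map_sub] at h4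
  linarith

variable [FiniteDimensional ℝ E]

lemma finrank_inf_ker (D : Submodule ℝ E) (f : E →ₗ[ℝ] ℝ) :
    finrank ℝ D ≤ finrank ℝ (D ⊓ LinearMap.ker f : Submodule ℝ E) + 1 := by
  have h1 := Submodule.finrank_sup_add_finrank_inf_eq D (LinearMap.ker f)
  have h2 := LinearMap.finrank_range_add_finrank_ker f
  have h3 : finrank ℝ (LinearMap.range f) ≤ 1 := by
    have := Submodule.finrank_le (LinearMap.range f)
    simpa using this
  have h4 := Submodule.finrank_le (D ⊔ LinearMap.ker f)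
  omega

lemma finrank_ker_of_ne {f : E →ₗ[ℝ] ℝ} (hf : f ≠ 0) :
    finrank ℝ (LinearMap.ker f) + 1 = finrank ℝ E := by
  have h2 := LinearMap.finrank_range_add_finrank_ker f
  have h3 : finrank ℝ (LinearMap.range f) = 1 := by
    have : LinearMap.range f = ⊤ := LinearMap.range_eq_top.2 (LinearMap.surjective hf)
    rw [this]; simp
  omega

lemma proportional {f g : E →ₗ[ℝ] ℝ} {H : Submodule ℝ E} (hf0 : f ≠ 0)
    (hf : H ≤ LinearMap.ker f) (hg : H ≤ LinearMap.ker g) (hH : finrank ℝ H + 1 = finrank ℝ E) :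
    ∃ κ : ℝ, g = κ • f := by
  have hk := finrank_ker_of_ne hf0
  have heq : H = LinearMap.ker f := Submodule.eq_of_le_of_finrank_eq hf (by omega)
  obtain ⟨u, hu⟩ : ∃ u, f u ≠ 0 := by
    by_contra hcon
    push Not at hcon
    exact hf0 (LinearMap.ext fun x => by simpa using hcon x)
  refine ⟨g u / f u, LinearMap.ext fun x => ?_⟩
  have hx : x - (f x / f u) • u ∈ LinearMap.ker f := by
    rw [LinearMap.mem_ker, map_sub, map_smul, smul_eq_mul]
    field_simp
    ring
  rw [← heq] at hx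
  have := hg hx
  rw [LinearMap.mem_ker, map_sub, map_smul, smul_eq_mul] at this
  rw [LinearMap.smul_apply, smul_eq_mul]
  have h2 : g x = f x / f u * g u := by linarith
  rw [h2]; ring

/-- Rotating a supporting hyperplane around a face of small dimension. -/
lemma rotate {V : Finset E} {b : E} (hb : b ∈ convexHull ℝ (V : Set E)) {f : E →ₗ[ℝ] ℝ}
    (hf : ∀ v ∈ V, f v ≤ f b)
    (hdim : finrank ℝ (vectorSpan ℝ (lev V f b : Set E)) + 1 < finrank ℝ (vectorSpan ℝ (V : Set E))) :
    ∃ f' : E →ₗ[ℝ] ℝ, (∀ v ∈ V, f' v ≤ f' b) ∧ (∃ v ∈ V, f' v < f' b) ∧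
      finrank ℝ (vectorSpan ℝ (lev V f b : Set E)) <
        finrank ℝ (vectorSpan ℝ (lev V f' b : Set E)) := by
  classical
  set D0 := vectorSpan ℝ (lev V f b : Set E) with hD0
  set D := vectorSpan ℝ (V : Set E) with hD
  have hbl : b ∈ convexHull ℝ (lev V f b : Set E) := mem_hull_lev hf hb rfl
  obtain ⟨y, hyD, hyf, hy0⟩ : ∃ y, y ∈ D ∧ f y = 0 ∧ y ∉ D0 := by
    by_contra hcon
    push Not at hcon
    have : D ⊓ LinearMap.ker f ≤ D0 := fun y hy => hcon y hy.1 hy.2
    have h1 := Submodule.finrank_mono this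
    have h2 := finrank_inf_ker D f
    omega
  obtain ⟨g0, hg0y, hg0⟩ := Submodule.exists_le_ker_of_notMem hy0
  -- choose the sign
  obtain ⟨g, hgy, hg, v1, hv1, hgv1⟩ : ∃ g : E →ₗ[ℝ] ℝ, g y ≠ 0 ∧ D0 ≤ LinearMap.ker g ∧
      ∃ v ∈ V, g b < g v := by
    by_cases h : ∃ v ∈ V, g0 b < g0 v
    · exact ⟨g0, hg0y, hg0, h⟩
    · push Not at h
      refine ⟨-g0, by simpa using hg0y, ?_, ?_⟩
      · intro x hx
        have := hg0 hx
        rw [LinearMap.mem_ker] at this ⊢
        simp [this]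
      · by_contra hcon
        push Not at hcon
        have hall : ∀ v ∈ (V : Set E), g0 v = g0 b := by
          intro v hv
          have h1 := h v (by exact_mod_cast hv)
          have h2 := hcon v (by exact_mod_cast hv)
          simp only [LinearMap.neg_apply] at h2
          linarith
        exact hg0y (vs_le_ker hall hyD)
  -- the first vertex which is hit
  let Vp := V.filter (fun v => g b < g v)
  have hVp : Vp.Nonempty := ⟨v1, Finset.mem_filter.2 ⟨hv1, hgv1⟩⟩
  obtain ⟨v2, hv2, hmin⟩ := Finset.exists_min_image Vp (fun v => (f b - f v) / (g v - g b)) hVp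
  obtain ⟨hv2V, hv2g⟩ := Finset.mem_filter.1 hv2
  set τ := (f b - f v2) / (g v2 - g b) with hτ
  have hlt : ∀ v ∈ V, g b < g v → f v < f b := by
    intro v hv hgv
    refine lt_of_le_of_ne (hf v hv) fun he => ?_
    have := eq_of_ker hbl hg (mem_lev.2 ⟨hv, he⟩)
    linarith
  have hτ0 : 0 < τ := div_pos (by linarith [hlt v2 hv2V hv2g]) (by linarith)
  refine ⟨f + τ • g, ?_, ?_, ?_⟩
  · intro v hv
    simp only [LinearMap.add_apply, LinearMap.smul_apply, smul_eq_mul]
    by_cases hgv : g b < g v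
    · have h1 := hmin v (Finset.mem_filter.2 ⟨hv, hgv⟩)
      rw [le_div_iff₀ (by linarith)] at h1
      linarith
    · push Not at hgv
      have := hf v hv
      nlinarith
  · by_contra hcon
    push Not at hcon
    have hle : ∀ v ∈ V, (f + τ • g) v ≤ (f + τ • g) b := by
      intro v hv
      simp only [LinearMap.add_apply, LinearMap.smul_apply, smul_eq_mul]
      by_cases hgv : g b < g v
      · have h1 := hmin v (Finset.mem_filter.2 ⟨hv, hgv⟩)
        rw [le_div_iff₀ (by linarith)] at h1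
        linarith
      · push Not at hgv
        have := hf v hv
        nlinarith
    have hall : ∀ v ∈ (V : Set E), (f + τ • g) v = (f + τ • g) b := fun v hv =>
      le_antisymm (hle v (by exact_mod_cast hv)) (hcon v (by exact_mod_cast hv))
    have h1 := vs_le_ker hall hyD
    rw [LinearMap.mem_ker, LinearMap.add_apply, LinearMap.smul_apply, hyf, zero_add,
      smul_eq_mul] at h1
    rcases mul_eq_zero.1 h1 with h2 | h2
    · linarith
    · exact hgy h2
  · have hsub : lev V f b ⊆ lev V (f + τ • g) b := by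
      intro w hw
      obtain ⟨hwV, hwf⟩ := mem_lev.1 hw
      have h1 := eq_of_ker hbl hg hw
      refine mem_lev.2 ⟨hwV, ?_⟩
      simp [hwf, h1]
    have hv2l : v2 ∈ lev V (f + τ • g) b := by
      refine mem_lev.2 ⟨hv2V, ?_⟩
      simp only [LinearMap.add_apply, LinearMap.smul_apply, smul_eq_mul]
      have : τ * (g v2 - g b) = f b - f v2 := by
        rw [hτ]; field_simp [(by linarith : g v2 - g b ≠ 0)]
      linarith
    apply Submodule.finrank_lt_finrank_of_lt
    refine lt_of_le_of_ne (vectorSpan_mono ℝ (by exact_mod_cast hsub)) fun he => ?_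
    -- a point of the old face
    obtain ⟨w, hw⟩ : (lev V f b).Nonempty := by
      rw [Finset.nonempty_iff_ne_empty]
      intro h0
      rw [h0] at hbl
      simp at hbl
    have h1 : v2 -ᵥ w ∈ vectorSpan ℝ (lev V (f + τ • g) b : Set E) :=
      vsub_mem_vectorSpan ℝ (by exact_mod_cast hv2l) (by exact_mod_cast hsub hw)
    rw [← he] at h1
    have h2 := lev_le_ker V f b h1
    rw [LinearMap.mem_ker, vsub_eq_sub, map_sub, (mem_lev.1 hw).2] at h2
    have := hlt v2 hv2V hv2g
    linarith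

/-- **Facet existence.** -/
lemma exists_facet {V : Finset E} {b : E} (hb : b ∈ convexHull ℝ (V : Set E)) (m : ℕ) :
    ∀ {f : E →ₗ[ℝ] ℝ}, (∀ v ∈ V, f v ≤ f b) → (∃ v ∈ V, f v < f b) →
    finrank ℝ (vectorSpan ℝ (V : Set E)) ≤
      m + finrank ℝ (vectorSpan ℝ (lev V f b : Set E)) + 1 →
    ∃ g : E →ₗ[ℝ] ℝ, (∀ v ∈ V, g v ≤ g b) ∧ (∃ v ∈ V, g v < g b) ∧
      finrank ℝ (vectorSpan ℝ (lev V g b : Set E)) + 1 = finrank ℝ (vectorSpan ℝ (V : Set E)) := by
  induction m with
  | zero =>
    intro f hf hne hm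
    refine ⟨f, hf, hne, ?_⟩
    obtain ⟨v, hv, hvf⟩ := hne
    have hlt : vectorSpan ℝ (lev V f b : Set E) < vectorSpan ℝ (V : Set E) := by
      refine lt_of_le_of_ne (vectorSpan_mono ℝ fun x hx => ?_) fun he => ?_
      · have := (mem_lev.1 (by exact_mod_cast hx : x ∈ lev V f b)).1
        exact_mod_cast this
      · have hbl : b ∈ convexHull ℝ (lev V f b : Set E) := mem_hull_lev hf hb rfl
        obtain ⟨w, hw⟩ : (lev V f b).Nonempty := by
          rw [Finset.nonempty_iff_ne_empty]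
          intro h0
          rw [h0] at hbl
          simp at hbl
        have h1 : v -ᵥ w ∈ vectorSpan ℝ (V : Set E) :=
          vsub_mem_vectorSpan ℝ (by exact_mod_cast hv) (by exact_mod_cast (mem_lev.1 hw).1)
        rw [← he] at h1
        have h2 := lev_le_ker V f b h1
        rw [LinearMap.mem_ker, vsub_eq_sub, map_sub, (mem_lev.1 hw).2] at h2
        linarith
    have := Submodule.finrank_lt_finrank_of_lt hlt
    omega
  | succ m ih =>
    intro f hf hne hm
    by_cases hd : finrank ℝ (vectorSpan ℝ (lev V f b : Set E)) + 1 <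
        finrank ℝ (vectorSpan ℝ (V : Set E))
    · obtain ⟨f', h1, h2, h3⟩ := rotate hb hf hd
      exact ih h1 h2 (by omega)
    · exact ih hf hne (by omega)

/-- A face of a face is a face. -/
lemma face_of_face {V : Finset E} {b : E} {h g : E →ₗ[ℝ] ℝ} (hh : ∀ v ∈ V, h v ≤ h b)
    (hg : ∀ v ∈ lev V h b, g v ≤ g b) :
    ∃ f : E →ₗ[ℝ] ℝ, (∀ v ∈ V, f v ≤ f b) ∧ lev V f b = lev (lev V h b) g b := by
  classical
  have hev : ∀ᶠ ε in nhdsWithin (0 : ℝ) (Set.Ioi 0),
      ∀ v ∈ V, h v < h b → ε * (g v - g b) < h b - h v := by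
    rw [Filter.eventually_all_finset]
    intro v _
    by_cases hv : h v < h b
    · have hc : Filter.Tendsto (fun ε : ℝ => ε * (g v - g b)) (nhds 0) (nhds 0) := by
        have : Continuous fun ε : ℝ => ε * (g v - g b) := by fun_prop
        simpa using this.tendsto 0
      have := hc.eventually (gt_mem_nhds (by linarith : (0 : ℝ) < h b - h v))
      filter_upwards [nhdsWithin_le_nhds this] with ε hε _ using hε
    · exact Filter.Eventually.of_forall fun ε h => absurd h hv
  obtain ⟨ε, hε, hε0⟩ := (hev.and self_mem_nhdsWithin).exists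
  have h0 : (0 : ℝ) < ε := hε0
  have key : ∀ v ∈ V, (h + ε • g) v ≤ (h + ε • g) b := by
    intro v hv
    simp only [LinearMap.add_apply, LinearMap.smul_apply, smul_eq_mul]
    rcases (hh v hv).lt_or_eq with h1 | h1
    · have := hε v hv h1
      linarith
    · have := hg v (mem_lev.2 ⟨hv, h1⟩)
      nlinarith
  refine ⟨h + ε • g, key, ?_⟩
  ext v
  rw [mem_lev, mem_lev, mem_lev]
  simp only [LinearMap.add_apply, LinearMap.smul_apply, smul_eq_mul]
  constructor
  · rintro ⟨hv, he⟩
    rcases (hh v hv).lt_or_eq with h1 | h1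
    · have := hε v hv h1
      exfalso; linarith
    · refine ⟨⟨hv, h1⟩, ?_⟩
      have : ε * g v = ε * g b := by linarith
      exact mul_left_cancel₀ h0.ne' this
  · rintro ⟨⟨hv, h1⟩, h2⟩
    exact ⟨hv, by rw [h1, h2]⟩

end Gen

end Pool.Agent.Y805.IL
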