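import Mathlib
import Pool.Agent.Y805.IL.Facet

/-! # Two sources illuminate the relative interiors of the facets of every polytope -/

namespace Pool.Agent.Y805.IL

open Pool.Agent.Results.MP_22e672_co.CubeDisproof Module

variable {d : ℕ}

/-- the supporting functionals at `b` -/
def Supp (V : Finset (EuclideanSpace ℝ (Fin d))) (b : EuclideanSpace ℝ (Fin d))
    (f : EuclideanSpace ℝ (Fin d) →ₗ[ℝ] ℝ) : Prop :=
  (∀ v ∈ V, f v ≤ f b) ∧ ∃ v ∈ V, f v < f b

lemma hull_face_eq {V : Finset (EuclideanSpace ℝ (Fin d))} {b : EuclideanSpace ℝ (Fin d)}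
    {f : EuclideanSpace ℝ (Fin d) →ₗ[ℝ] ℝ} (hf : ∀ v ∈ V, f v ≤ f b) :
    {x | x ∈ convexHull ℝ (V : Set (EuclideanSpace ℝ (Fin d))) ∧ f x = f b} =
      convexHull ℝ (lev V f b : Set (EuclideanSpace ℝ (Fin d))) := by
  ext x
  constructor
  · rintro ⟨hx, he⟩
    exact mem_hull_lev hf hx he
  · intro hx
    refine ⟨convexHull_mono (fun y hy => ?_) hx, ?_⟩
    · exact_mod_cast (mem_lev.1 (by exact_mod_cast hy : y ∈ lev V f b)).1
    · apply le_antisymm
      · exact le_of_hull (fun v hv => (mem_lev.1 hv).2.le) hx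
      · have h2 : (-f) x ≤ -(f b) := le_of_hull (V := lev V f b) (f := -f) (c := -(f b))
          (fun v hv => by simp [(mem_lev.1 hv).2]) hx
        simp only [LinearMap.neg_apply] at h2
        linarith

/-- A supporting functional whose level set spans dimension `k` gives a `k`-dimensional face. -/
lemma not_mem_X {V : Finset (EuclideanSpace ℝ (Fin d))} {b : EuclideanSpace ℝ (Fin d)}
    (hb : b ∈ convexHull ℝ (V : Set (EuclideanSpace ℝ (Fin d))))
    {f : EuclideanSpace ℝ (Fin d) →ₗ[ℝ] ℝ} (hf : Supp V b f) {k : ℕ}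
    (hk : finrank ℝ (vectorSpan ℝ (lev V f b : Set (EuclideanSpace ℝ (Fin d)))) = k) :
    b ∉ X k (convexHull ℝ (V : Set (EuclideanSpace ℝ (Fin d)))) := by
  rintro ⟨-, h⟩
  refine h {x | x ∈ convexHull ℝ (V : Set (EuclideanSpace ℝ (Fin d))) ∧ f x = f b}
    (Or.inr ⟨f, f b, ?_, fun x hx => le_of_hull hf.1 hx, ⟨b, hb, rfl⟩, rfl⟩) ?_ ⟨hb, rfl⟩
  · rintro rfl
    obtain ⟨v, -, hv⟩ := hf.2
    simp at hv
  · rw [HasDim, hull_face_eq hf.1, affineSpan_convexHull, direction_affineSpan]
    exact hk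

lemma span_top {V : Finset (EuclideanSpace ℝ (Fin d))}
    (hint : (interior (convexHull ℝ (V : Set (EuclideanSpace ℝ (Fin d))))).Nonempty) :
    finrank ℝ (vectorSpan ℝ (V : Set (EuclideanSpace ℝ (Fin d)))) = d := by
  have h := AffineSubspace.vectorSpan_eq_top_of_affineSpan_eq_top ℝ _ _
    (interior_convexHull_nonempty_iff_affineSpan_eq_top.1 hint)
  rw [h]
  simp

/-- In a full dimensional polytope a point in no `(d-2)`-dimensional face has only facet
functionals. -/
lemma supp_facet (hd : 2 ≤ d) {V : Finset (EuclideanSpace ℝ (Fin d))}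
    (hint : (interior (convexHull ℝ (V : Set (EuclideanSpace ℝ (Fin d))))).Nonempty)
    {b : EuclideanSpace ℝ (Fin d)} (hb : b ∈ convexHull ℝ (V : Set (EuclideanSpace ℝ (Fin d))))
    (hX : b ∈ X (d - 2) (convexHull ℝ (V : Set (EuclideanSpace ℝ (Fin d)))))
    {f : EuclideanSpace ℝ (Fin d) →ₗ[ℝ] ℝ} (hf : Supp V b f) :
    finrank ℝ (vectorSpan ℝ (lev V f b : Set (EuclideanSpace ℝ (Fin d)))) + 1 = d := by
  have hspan := span_top hint
  have hf0 : f ≠ 0 := by
    rintro rfl
    obtain ⟨v, -, hv⟩ := hf.2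
    simp at hv
  have hle : finrank ℝ (vectorSpan ℝ (lev V f b : Set (EuclideanSpace ℝ (Fin d)))) + 1 ≤ d := by
    have h1 := Submodule.finrank_mono (lev_le_ker V f b)
    have h2 := finrank_ker_of_ne hf0
    have h3 : finrank ℝ (EuclideanSpace ℝ (Fin d)) = d := by simp
    omega
  by_contra hcon
  have hlt : finrank ℝ (vectorSpan ℝ (lev V f b : Set (EuclideanSpace ℝ (Fin d)))) + 1 < d := by
    omega
  obtain ⟨h, hh1, hh2, hh3⟩ := exists_facet hb d hf.1 hf.2 (by omega)
  rw [hspan] at hh3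
  have hbh : b ∈ convexHull ℝ (lev V h b : Set (EuclideanSpace ℝ (Fin d))) := mem_hull_lev hh1 hb rfl
  have hne : ∃ v ∈ lev V h b, f v < f b := by
    by_contra hc
    push Not at hc
    have hsub : (lev V h b : Set (EuclideanSpace ℝ (Fin d))) ⊆ lev V f b := by
      intro v hv
      have hv' : v ∈ lev V h b := by exact_mod_cast hv
      have h1 := hc v hv'
      have h2 := hf.1 v (mem_lev.1 hv').1
      have h3 : v ∈ lev V f b := mem_lev.2 ⟨(mem_lev.1 hv').1, le_antisymm h2 h1⟩
      exact_mod_cast h3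
    have := Submodule.finrank_mono (vectorSpan_mono ℝ hsub)
    omega
  obtain ⟨g, hg1, hg2, hg3⟩ := exists_facet hbh d (f := f)
    (fun v hv => hf.1 v (mem_lev.1 hv).1) hne (by omega)
  obtain ⟨F, hF1, hF2⟩ := face_of_face hh1 hg1
  refine not_mem_X hb (f := F) ⟨hF1, ?_⟩ (k := d - 2) ?_ hX
  · obtain ⟨v, hv, hvg⟩ := hg2
    refine ⟨v, (mem_lev.1 hv).1, lt_of_le_of_ne (hF1 v (mem_lev.1 hv).1) fun he => ?_⟩
    have : v ∈ lev V F b := mem_lev.2 ⟨(mem_lev.1 hv).1, he⟩
    rw [hF2] at this
    have := (mem_lev.1 this).2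
    linarith
  · rw [hF2]
    omega

/-- A supporting functional exists at each boundary point. -/
lemma exists_supp {V : Finset (EuclideanSpace ℝ (Fin d))}
    (hint : (interior (convexHull ℝ (V : Set (EuclideanSpace ℝ (Fin d))))).Nonempty)
    {b : EuclideanSpace ℝ (Fin d)}
    (hb : b ∈ frontier (convexHull ℝ (V : Set (EuclideanSpace ℝ (Fin d))))) :
    ∃ f, Supp V b f := by
  set P := convexHull ℝ (V : Set (EuclideanSpace ℝ (Fin d))) with hP
  have hconv : Convex ℝ P := convex_convexHull ℝ _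
  have hnot : b ∉ interior P := by
    rw [frontier, Set.mem_sdiff] at hb
    exact hb.2
  obtain ⟨f, hf⟩ := geometric_hahn_banach_open_point hconv.interior isOpen_interior hnot
  have hle : ∀ x ∈ P, f x ≤ f b := by
    intro x hx
    have hcl : P ⊆ closure (interior P) := by
      rw [hconv.closure_interior_eq_closure_of_nonempty_interior hint]
      exact subset_closure
    have : closure (interior P) ⊆ {x | f x ≤ f b} :=
      closure_minimal (fun y hy => (hf y hy).le) (isClosed_le f.continuous continuous_const)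
    exact this (hcl hx)
  refine ⟨f.toLinearMap, fun v hv => hle v (subset_convexHull ℝ _ (by exact_mod_cast hv)), ?_⟩
  by_contra hcon
  push Not at hcon
  obtain ⟨x0, hx0⟩ := hint
  have h1 := hf x0 hx0
  have h2 : (-f.toLinearMap) x0 ≤ -(f b) := le_of_hull (V := V) (f := -f.toLinearMap)
    (c := -(f b)) (fun v hv => by
      have := hcon v hv
      simp only [LinearMap.neg_apply, ContinuousLinearMap.coe_coe] at this ⊢
      linarith) (interior_subset hx0)
  simp only [LinearMap.neg_apply, ContinuousLinearMap.coe_coe] at h2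
  linarith

/-- The set `X (d-1)` is empty: each boundary point lies on a facet. -/
theorem X_top (hd : 1 ≤ d) {P : Set (EuclideanSpace ℝ (Fin d))} (hP : IsPolytope P) :
    X (d - 1) P = ∅ := by
  obtain ⟨⟨V0, hfin, rfl⟩, hint⟩ := hP
  obtain ⟨V, rfl⟩ := hfin.exists_finset_coe
  rw [Set.eq_empty_iff_forall_notMem]
  intro b hbX
  have hbP : b ∈ convexHull ℝ (V : Set (EuclideanSpace ℝ (Fin d))) := by
    have hc : IsClosed (convexHull ℝ (V : Set (EuclideanSpace ℝ (Fin d)))) :=
      (V.finite_toSet.isCompact_convexHull ℝ).isClosed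
    exact hc.frontier_subset hbX.1
  obtain ⟨f, hf⟩ := exists_supp hint hbX.1
  have hspan := span_top hint
  obtain ⟨h, hh1, hh2, hh3⟩ := exists_facet hbP d hf.1 hf.2 (by omega)
  rw [hspan] at hh3
  exact not_mem_X hbP ⟨hh1, hh2⟩ (k := d - 1) (by omega) hbX

lemma illum_of_beyond (hd : 2 ≤ d) {V : Finset (EuclideanSpace ℝ (Fin d))}
    {x0 : EuclideanSpace ℝ (Fin d)}
    (hx0 : x0 ∈ interior (convexHull ℝ (V : Set (EuclideanSpace ℝ (Fin d)))))
    {b : EuclideanSpace ℝ (Fin d)}
    (hX : b ∈ X (d - 2) (convexHull ℝ (V : Set (EuclideanSpace ℝ (Fin d)))))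
    (hb : b ∈ convexHull ℝ (V : Set (EuclideanSpace ℝ (Fin d))))
    {f : EuclideanSpace ℝ (Fin d) →ₗ[ℝ] ℝ} (hf : Supp V b f) {s : EuclideanSpace ℝ (Fin d)}
    (hs : f b < f s) : Illuminates (convexHull ℝ (V : Set (EuclideanSpace ℝ (Fin d)))) s b := by
  set P := convexHull ℝ (V : Set (EuclideanSpace ℝ (Fin d))) with hP
  have hconv : Convex ℝ P := convex_convexHull ℝ _
  have hint : (interior P).Nonempty := ⟨x0, hx0⟩
  have hcl : P ⊆ closure (interior P) := by
    rw [hconv.closure_interior_eq_closure_of_nonempty_interior hint]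
    exact subset_closure
  have hfP : ∀ x ∈ P, f x ≤ f b := fun x hx => le_of_hull hf.1 hx
  have hx0lt : ∀ g : EuclideanSpace ℝ (Fin d) →ₗ[ℝ] ℝ, Supp V b g → g x0 < g b := by
    intro g hg
    refine lt_of_le_of_ne (le_of_hull hg.1 (interior_subset hx0)) fun he => ?_
    -- a nonzero functional has no local maximum
    obtain ⟨v, hv, hvg⟩ := hg.2
    have hc : Continuous fun r : ℝ => x0 + r • (x0 - v) := by fun_prop
    have hev : ∀ᶠ r in nhdsWithin (0 : ℝ) (Set.Ioi 0), x0 + r • (x0 - v) ∈ interior P := by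
      have : Filter.Tendsto (fun r : ℝ => x0 + r • (x0 - v)) (nhds 0) (nhds x0) := by
        simpa using hc.tendsto 0
      exact nhdsWithin_le_nhds (this.eventually (isOpen_interior.mem_nhds hx0))
    obtain ⟨r, hr, hr0⟩ := (hev.and self_mem_nhdsWithin).exists
    have h0 : (0 : ℝ) < r := hr0
    have h1 := le_of_hull hg.1 (interior_subset hr)
    rw [map_add, map_smul, map_sub, smul_eq_mul, he] at h1
    nlinarith
  constructor
  · by_contra hcon
    push Not at hcon
    let R : Set (EuclideanSpace ℝ (Fin d)) := {x | ∃ ε : ℝ, 0 ≤ ε ∧ x = b + ε • (b - s)}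
    have hR : Convex ℝ R := by
      rintro x ⟨e1, h1, rfl⟩ y ⟨e2, h2, rfl⟩ a c ha hc hac
      refine ⟨a * e1 + c * e2, by positivity, ?_⟩
      have : c = 1 - a := by linarith
      subst this
      module
    have hdis : Disjoint (interior P) R := by
      rw [Set.disjoint_left]
      rintro x hx ⟨ε, hε, rfl⟩
      refine hcon (1 + ε) (by linarith) ?_
      have : s + (1 + ε) • (b - s) = b + ε • (b - s) := by module
      rw [this]; exact hx
    obtain ⟨g, c, hg1, hg2⟩ := geometric_hahn_banach_open hconv.interior isOpen_interior hR hdis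
    have hgP : ∀ x ∈ P, g x ≤ c := by
      intro x hx
      have : closure (interior P) ⊆ {x | g x ≤ c} :=
        closure_minimal (fun y hy => (hg1 y hy).le) (isClosed_le g.continuous continuous_const)
      exact this (hcl hx)
    have hgb : g b = c := le_antisymm (hgP b hb) (hg2 b ⟨0, le_rfl, by simp⟩)
    have hgs : 0 ≤ g (b - s) := by
      have := hg2 (b + (1 : ℝ) • (b - s)) ⟨1, zero_le_one, rfl⟩
      rw [one_smul, map_add, hgb] at this
      linarith
    have hgV : ∀ v ∈ V, g v ≤ g b := fun v hv => by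
      rw [hgb]; exact hgP v (subset_convexHull ℝ _ (by exact_mod_cast hv))
    have hgx0 : g x0 < g b := by rw [hgb]; exact hg1 x0 hx0
    -- the sum is a facet functional
    have hsum : Supp V b (f + g.toLinearMap) := by
      constructor
      · intro v hv
        have h1 := hf.1 v hv
        have h2 := hgV v hv
        simp only [LinearMap.add_apply, ContinuousLinearMap.coe_coe]
        linarith
      · obtain ⟨v, hv, hvf⟩ := hf.2
        have h2 := hgV v hv
        refine ⟨v, hv, ?_⟩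
        simp only [LinearMap.add_apply, ContinuousLinearMap.coe_coe]
        linarith
    have hdim := supp_facet hd hint hb hX hsum
    have hlev : ∀ v ∈ (lev V (f + g.toLinearMap) b : Set (EuclideanSpace ℝ (Fin d))),
        f v = f b ∧ g v = g b := by
      intro v hv
      obtain ⟨hvV, he⟩ := mem_lev.1 (by exact_mod_cast hv : v ∈ lev V (f + g.toLinearMap) b)
      have h1 := hf.1 v hvV
      have h2 := hgV v hvV
      simp only [LinearMap.add_apply, ContinuousLinearMap.coe_coe] at he
      constructor <;> linarith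
    have hf0 : f ≠ 0 := by
      rintro rfl
      obtain ⟨v, -, hv⟩ := hf.2
      simp at hv
    obtain ⟨κ, hκ⟩ := proportional (f := f) (g := g.toLinearMap) hf0
      (vs_le_ker fun v hv => (hlev v hv).1)
      (vs_le_ker (f := g.toLinearMap) (c := g b) fun v hv => (hlev v hv).2) (by rw [hdim]; simp)
    have hgκ : ∀ x, g x = κ * f x := by
      intro x
      have := LinearMap.congr_fun hκ x
      simpa using this
    have h1 := hx0lt f hf
    rw [hgκ, hgκ] at hgx0
    rw [map_sub, hgκ, hgκ] at hgs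
    have hκ0 : 0 < κ := by
      by_contra hneg
      push Not at hneg
      nlinarith
    nlinarith
  · ext x
    simp only [Set.mem_inter_iff, Set.mem_singleton_iff]
    constructor
    · rintro ⟨hx, hxP⟩
      rw [segment_eq_image'] at hx
      obtain ⟨τ, ⟨h0, h1⟩, rfl⟩ := hx
      have h2 := hfP _ hxP
      simp only [map_add, map_smul, map_sub, smul_eq_mul] at h2
      have : τ = 1 := by nlinarith
      rw [this]; simp
    · rintro rfl
      exact ⟨right_mem_segment _ _ _, hb⟩

/-- **Two sources** illuminate every boundary point that lies in no `(d-2)`-dimensional face. -/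
theorem two_sources (hd : 2 ≤ d) {P : Set (EuclideanSpace ℝ (Fin d))} (hP : IsPolytope P) :
    ∃ S : Finset (EuclideanSpace ℝ (Fin d)), S.card ≤ 2 ∧ Illum P (d - 2) S := by
  classical
  obtain ⟨⟨V0, hfin, rfl⟩, hint⟩ := hP
  obtain ⟨V, rfl⟩ := hfin.exists_finset_coe
  obtain ⟨x0, hx0⟩ := hint
  have hint : (interior (convexHull ℝ (V : Set (EuclideanSpace ℝ (Fin d))))).Nonempty := ⟨x0, hx0⟩
  have hE : finrank ℝ (EuclideanSpace ℝ (Fin d)) = d := by simp
  -- a generic direction
  let 𝒮 : Finset (Submodule ℝ (EuclideanSpace ℝ (Fin d))) :=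
    insert ⊥ ((V.powerset.image (fun W : Finset (EuclideanSpace ℝ (Fin d)) =>
      vectorSpan ℝ (W : Set (EuclideanSpace ℝ (Fin d))))).filter
      (fun D => finrank ℝ D < d))
  have hbot : (⊥ : Submodule ℝ (EuclideanSpace ℝ (Fin d))) ≠ ⊤ := by
    intro h
    have := congrArg (fun D : Submodule ℝ (EuclideanSpace ℝ (Fin d)) => finrank ℝ D) h
    simp at this
    omega
  have htop : (⊤ : Submodule ℝ (EuclideanSpace ℝ (Fin d))) ∉ 𝒮 := by
    intro h
    rcases Finset.mem_insert.1 h with h1 | h1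
    · exact hbot h1.symm
    · have := (Finset.mem_filter.1 h1).2
      rw [finrank_top, hE] at this
      exact lt_irrefl _ this
  obtain ⟨u, hu⟩ : ∃ u, ∀ D ∈ 𝒮, u ∉ D := by
    by_contra hcon
    push Not at hcon
    apply Subspace.biUnion_ne_univ_of_top_notMem htop
    rw [Set.eq_univ_iff_forall]
    intro x
    obtain ⟨D, hD, hx⟩ := hcon x
    exact Set.mem_biUnion hD hx
  have hu0 : u ≠ 0 := fun h => hu ⊥ (Finset.mem_insert_self _ _) (by simp [h])
  -- for each vertex set a bound for the ratio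
  have hratio : ∀ W : Finset (EuclideanSpace ℝ (Fin d)), ∃ r : ℝ,
      ∀ (f : EuclideanSpace ℝ (Fin d) →ₗ[ℝ] ℝ) (b : EuclideanSpace ℝ (Fin d)),
      f ≠ 0 → b ∈ convexHull ℝ (W : Set (EuclideanSpace ℝ (Fin d))) →
      vectorSpan ℝ (W : Set (EuclideanSpace ℝ (Fin d))) ≤ LinearMap.ker f →
      finrank ℝ (vectorSpan ℝ (W : Set (EuclideanSpace ℝ (Fin d)))) + 1 = d → f u ≠ 0 →
      |f b - f x0| = r * |f u| := by
    intro W
    by_cases h : ∃ (f : EuclideanSpace ℝ (Fin d) →ₗ[ℝ] ℝ) (b : EuclideanSpace ℝ (Fin d)),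
      f ≠ 0 ∧ b ∈ convexHull ℝ (W : Set (EuclideanSpace ℝ (Fin d))) ∧
      vectorSpan ℝ (W : Set (EuclideanSpace ℝ (Fin d))) ≤ LinearMap.ker f ∧ f u ≠ 0
    · obtain ⟨f0, b0, hf0, hb0, hW0, hu0⟩ := h
      refine ⟨|f0 b0 - f0 x0| / |f0 u|, fun f b hf hb hW hdim hfu => ?_⟩
      obtain ⟨κ, rfl⟩ := proportional hf0 hW0 hW (by rw [hdim, hE])
      obtain ⟨w, hw⟩ : W.Nonempty := by
        rw [Finset.nonempty_iff_ne_empty]
        rintro rfl
        simp at hb
      have e1 : f0 w = f0 b := eq_of_ker hb hW0 hw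
      have e2 : f0 w = f0 b0 := eq_of_ker hb0 hW0 hw
      simp only [LinearMap.smul_apply, smul_eq_mul]
      rw [← e1, e2, ← mul_sub, abs_mul, abs_mul]
      have : |f0 u| ≠ 0 := abs_ne_zero.2 hu0
      field_simp
    · refine ⟨0, fun f b hf hb hW _ hfu => ?_⟩
      exact absurd ⟨f, b, hf, hb, hW, hfu⟩ h
  choose r hr using hratio
  -- boundedness
  have hbd : Bornology.IsBounded (convexHull ℝ (V : Set (EuclideanSpace ℝ (Fin d)))) :=
    (V.finite_toSet.isCompact_convexHull ℝ).isBounded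
  obtain ⟨R, hR⟩ := hbd.exists_norm_le
  have hunorm : 0 < ‖u‖ := norm_pos_iff.2 hu0
  let L : ℝ := (|R| + ‖x0‖ + 1) / ‖u‖ + ∑ W ∈ V.powerset, |r W| + 1
  have hL1 : (|R| + ‖x0‖ + 1) / ‖u‖ ≤ L := by
    have : 0 ≤ ∑ W ∈ V.powerset, |r W| := Finset.sum_nonneg fun _ _ => abs_nonneg _
    simp only [L]; linarith
  have hL2 : ∀ W ∈ V.powerset, r W < L := by
    intro W hW
    have h1 : |r W| ≤ ∑ W ∈ V.powerset, |r W| :=
      Finset.single_le_sum (f := fun W => |r W|) (fun _ _ => abs_nonneg _) hW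
    have h2 : 0 ≤ (|R| + ‖x0‖ + 1) / ‖u‖ := by positivity
    have h3 := le_abs_self (r W)
    simp only [L]; linarith
  have hL0 : 0 < L := lt_of_lt_of_le (by positivity) hL1
  have hout : ∀ c : ℝ, |c| = L → x0 + c • u ∉ convexHull ℝ (V : Set (EuclideanSpace ℝ (Fin d))) := by
    intro c hc hmem
    have h1 := hR _ hmem
    have h2 : ‖c • u‖ ≤ ‖x0 + c • u‖ + ‖x0‖ := by
      calc ‖c • u‖ = ‖(x0 + c • u) - x0‖ := by congr 1; abel
        _ ≤ _ := norm_sub_le _ _
    rw [norm_smul, Real.norm_eq_abs, hc] at h2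
    have h3 : |R| + ‖x0‖ + 1 ≤ L * ‖u‖ := by
      rwa [div_le_iff₀ hunorm] at hL1
    have h4 := le_abs_self R
    linarith
  refine ⟨{x0 + L • u, x0 + (-L) • u}, Finset.card_le_two, ?_, ?_⟩
  · intro s hs
    rw [Finset.mem_insert, Finset.mem_singleton] at hs
    rcases hs with rfl | rfl
    · exact hout L (abs_of_pos hL0)
    · exact hout (-L) (by rw [abs_neg, abs_of_pos hL0])
  · intro b hbX
    have hbP : b ∈ convexHull ℝ (V : Set (EuclideanSpace ℝ (Fin d))) := by
      have hc : IsClosed (convexHull ℝ (V : Set (EuclideanSpace ℝ (Fin d)))) :=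
        (V.finite_toSet.isCompact_convexHull ℝ).isClosed
      exact hc.frontier_subset hbX.1
    obtain ⟨f, hf⟩ := exists_supp hint hbX.1
    have hdim := supp_facet hd hint hbP hbX hf
    have hf0 : f ≠ 0 := by
      rintro rfl
      obtain ⟨v, -, hv⟩ := hf.2
      simp at hv
    have hker : vectorSpan ℝ (lev V f b : Set (EuclideanSpace ℝ (Fin d))) = LinearMap.ker f := by
      apply Submodule.eq_of_le_of_finrank_eq (lev_le_ker V f b)
      have := finrank_ker_of_ne hf0
      omega
    have hlevV : lev V f b ∈ V.powerset :=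
      Finset.mem_powerset.2 fun v hv => (mem_lev.1 hv).1
    have hfu : f u ≠ 0 := by
      intro h0
      refine hu (vectorSpan ℝ (lev V f b : Set (EuclideanSpace ℝ (Fin d)))) ?_ ?_
      · refine Finset.mem_insert_of_mem (Finset.mem_filter.2 ⟨Finset.mem_image_of_mem _ hlevV, ?_⟩)
        omega
      · rw [hker, LinearMap.mem_ker]; exact h0
    have hrat := hr (lev V f b) f b hf0 (mem_hull_lev hf.1 hbP rfl) (lev_le_ker V f b) hdim hfu
    have hrL := hL2 _ hlevV
    have habs : 0 < |f u| := abs_pos.2 hfu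
    have hlt : f b - f x0 < L * |f u| := by
      calc f b - f x0 ≤ |f b - f x0| := le_abs_self _
        _ = r (lev V f b) * |f u| := hrat
        _ < L * |f u| := by nlinarith
    rcases lt_or_gt_of_ne hfu with h | h
    · refine ⟨x0 + (-L) • u, by simp, illum_of_beyond hd hx0 hbX hbP hf ?_⟩
      rw [map_add, map_smul, smul_eq_mul]
      rw [abs_of_neg h] at hlt
      linarith
    · refine ⟨x0 + L • u, by simp, illum_of_beyond hd hx0 hbX hbP hf ?_⟩
      rw [map_add, map_smul, smul_eq_mul]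
      rw [abs_of_pos h] at hlt
      linarith

end Pool.Agent.Y805.IL
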